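import Pool.Agent.Helper2_Pak.StmtsK

/-!
# K3: tiles in far cells are disjoint
-/

namespace Pool.Agent.Helper2_Pak.H54

open MeasureTheory Set
open Pool.Agent.Helper2_Pack (Motion)

theorem abs_rot (k : ℕ) (w : ℂ) :
    (|(Complex.I ^ k * w).re| = |w.re| ∧ |(Complex.I ^ k * w).im| = |w.im|) ∨
      (|(Complex.I ^ k * w).re| = |w.im| ∧ |(Complex.I ^ k * w).im| = |w.re|) := by
  induction k with
  | zero => left; simp
  | succ k ih =>
    have e : Complex.I ^ (k + 1) * w = Complex.I * (Complex.I ^ k * w) := by ring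
    have r1 : (Complex.I * (Complex.I ^ k * w)).re = -(Complex.I ^ k * w).im := by simp
    have r2 : (Complex.I * (Complex.I ^ k * w)).im = (Complex.I ^ k * w).re := by simp
    rw [e, r1, r2, abs_neg]
    rcases ih with ⟨h1, h2⟩ | ⟨h1, h2⟩
    · right
      exact ⟨h2, h1⟩
    · left
      exact ⟨h2, h1⟩

theorem tile_bd (hS : S2Stmt) {t : ℝ} (ht : 0 < t) (h1 : t ≤ 1 / 2 ^ 60) (k : ℕ) (v z : ℂ)
    (hz : z ∈ tile t (mk k v)) : |z.re - v.re| ≤ hh t + t ^ 3 ∧ |z.im - v.im| ≤ hh t + t ^ 3 ∧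
      |z.re - v.re| + |z.im - v.im| ≤ 1 / 2 + hh t - t := by
  obtain ⟨w, hw, rfl⟩ := hz
  obtain ⟨a1, a2, a3⟩ := (hS t ht h1).1 w hw
  have e : (mk k v).app w - v = Complex.I ^ k * w := by
    show Complex.I ^ k * w + v - v = _
    ring
  have r1 : ((mk k v).app w).re - v.re = (Complex.I ^ k * w).re := by
    rw [← e, Complex.sub_re]
  have r2 : ((mk k v).app w).im - v.im = (Complex.I ^ k * w).im := by
    rw [← e, Complex.sub_im]
  have h2 : 1 / 2 ≤ hh t := by unfold hh; nlinarith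
  have h3 := pow_pos ht 3
  rw [r1, r2]
  rcases abs_rot k w with ⟨b1, b2⟩ | ⟨b1, b2⟩
  · rw [b1, b2]
    exact ⟨by linarith, a2, a3⟩
  · rw [b1, b2]
    exact ⟨a2, by linarith, by linarith⟩

/-- K3 -/
theorem k3 (hS : S2Stmt) : K3Stmt := by
  intro t k k' v v' ht h1 h
  refine Set.disjoint_left.2 fun z hz hz' => ?_
  obtain ⟨a1, a2, a3⟩ := tile_bd hS ht h1 k v z (interior_subset hz)
  obtain ⟨b1, b2, b3⟩ := tile_bd hS ht h1 k' v' z (interior_subset hz')
  have h2 : t ≤ 1 / 1024 := h1.trans (by norm_num)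
  have h3 : hh t ≤ 1 / 2 + t / 1024 := by unfold hh; nlinarith
  have h4 : t ^ 3 ≤ t / 1024 := by
    have : t ^ 2 ≤ 1 / 1024 := by nlinarith
    nlinarith
  have e1 : |v'.re - v.re| ≤ |z.re - v.re| + |z.re - v'.re| := by
    have := abs_sub (z.re - v.re) (z.re - v'.re)
    rwa [show z.re - v.re - (z.re - v'.re) = v'.re - v.re by ring] at this
  have e2 : |v'.im - v.im| ≤ |z.im - v.im| + |z.im - v'.im| := by
    have := abs_sub (z.im - v.im) (z.im - v'.im)
    rwa [show z.im - v.im - (z.im - v'.im) = v'.im - v.im by ring] at this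
  rcases h with ⟨h5, h6⟩ | h5 | h5
  · linarith
  · linarith
  · linarith

end Pool.Agent.Helper2_Pak.H54
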