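import Pool.Agent.Helper54_Pak.SideW

/-!
# P1a: the sides of the shape
-/

namespace Pool.Agent.Helper2_Pak.H54

open MeasureTheory Set
open Pool.Agent.Helper2_Pack (Polygon pt Crosses region IsSimple chainVal)

theorem weak_bot {t : ℚ} (ht : 0 < t) (h1 : t ≤ 1 / 2 ^ 60) : WeakX (botP t) := by
  obtain ⟨p1, p2, p3, p4, p5, p6, p7, p8, p9⟩ := pwQ ht h1
  refine weak_of_strict (pw_of_chain (f := Prod.fst) ?_)
  simp only [botP, sBot, tentPts, List.cons_append, List.nil_append, List.isChain_cons_cons,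
    List.isChain_singleton, and_true]
  refine ⟨?_, ?_, ?_, ?_, ?_, ?_, ?_⟩ <;> linarith only [h1]

theorem weak_top {t : ℚ} (ht : 0 < t) (h1 : t ≤ 1 / 2 ^ 60) : WeakX (topP t) := by
  obtain ⟨p1, p2, p3, p4, p5, p6, p7, p8, p9⟩ := pwQ ht h1
  refine weak_of_strict (pw_of_chain (f := Prod.fst) ?_)
  simp only [topP, sTop, tentPts, List.cons_append, List.nil_append, List.isChain_cons_cons,
    List.isChain_singleton, and_true]
  refine ⟨?_, ?_, ?_, ?_, ?_, ?_, ?_⟩ <;> linarith only [h1, p5, p6, p7]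

theorem strict_lef {t : ℚ} (ht : 0 < t) (h1 : t ≤ 1 / 2 ^ 60) : StrictY (lefP t) := by
  obtain ⟨p1, p2, p3, p4, p5, p6, p7, p8, p9⟩ := pwQ ht h1
  have h2 : 1 / 2 ≤ hh t := by unfold hh; linarith only [p2]
  refine pw_of_chain (f := Prod.snd) ?_
  simp only [lefP, sLeft, pitPts, List.cons_append, List.nil_append, List.isChain_cons_cons,
    List.isChain_singleton, and_true]
  refine ⟨?_, ?_, ?_, ?_, ?_, ?_, ?_, ?_, ?_, ?_, ?_, ?_, ?_, ?_, ?_, ?_, ?_⟩ <;> linarith only [p5, p6, p7, h1, h2, p9, p8]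

theorem strict_rig {t : ℚ} (ht : 0 < t) (h1 : t ≤ 1 / 2 ^ 60) : StrictY (rigP t) := by
  obtain ⟨p1, p2, p3, p4, p5, p6, p7, p8, p9⟩ := pwQ ht h1
  have h2 : 1 / 2 ≤ hh t := by unfold hh; linarith only [p2]
  refine pw_of_chain (f := Prod.snd) ?_
  simp only [rigP, sRight, pitPts, List.cons_append, List.nil_append, List.isChain_cons_cons,
    List.isChain_singleton, and_true]
  refine ⟨?_, ?_, ?_, ?_, ?_, ?_, ?_, ?_, ?_, ?_, ?_, ?_, ?_, ?_, ?_, ?_, ?_, ?_, ?_⟩ <;> linarith only [p5, p6, p7, h1, h2]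

/-- P1a -/
theorem p1a : P1aStmt := by
  intro m hm
  have ht : (0 : ℚ) < (1 / 2) ^ m := by positivity
  have h1 : ((1 / 2 : ℚ)) ^ m ≤ 1 / 2 ^ 60 := by
    have h : ((1 / 2 : ℚ)) ^ m ≤ (1 / 2) ^ 60 :=
      pow_le_pow_of_le_one (by norm_num) (by norm_num) hm
    refine h.trans (le_of_eq ?_)
    norm_num
  refine ⟨weak_bot ht h1, strict_lef ht h1, weak_top ht h1, strict_rig ht h1, ?_, ?_⟩
  · intro x hx1 hx2
    have e1 := bot_val ht h1 x (by rw [cast_half]; exact hx1) (by rw [cast_half]; exact hx2)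
    have e2 := top_val ht h1 x (by rw [cast_half]; exact hx1) (by rw [cast_half]; exact hx2)
    rw [cast_half] at e1 e2
    exact ⟨e1, e2⟩
  · intro y hy1 hy2
    have e1 := lef_val ht h1 y (by rw [cast_half]; exact hy1) (by rw [cast_half]; exact hy2)
    have e2 := rig_val ht h1 y (by rw [cast_half]; exact hy1) (by rw [cast_half]; exact hy2)
    rw [cast_half] at e1 e2
    exact ⟨e1, e2⟩

end Pool.Agent.Helper2_Pak.H54
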