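import Pool.Agent.Helper54_Pak.Base
import Pool.Agent.Helper2_Pack.S1

/-!
# S1: the shape is a regular compact set
-/

namespace Pool.Agent.Helper2_Pak.H54

open MeasureTheory Set
open Pool.Agent.Helper2_Pack (Motion)

theorem bump_cont (t : ℝ) : Continuous (bump t) := by unfold bump; fun_prop

theorem dent_cont (t : ℝ) : Continuous (dent t) := by unfold dent; fun_prop

theorem pit_cont (a b : ℝ) : Continuous (pit a b) := by unfold pit; fun_prop

theorem slit_cont (t d : ℝ) : Continuous (slit t d) := by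
  unfold slit
  simp only [div_eq_mul_inv]
  fun_prop

theorem chamf_cont (t w : ℝ) : Continuous (chamf t w) := by unfold chamf; fun_prop

theorem lo_cont (t : ℝ) : Continuous (lo t) := by
  have h1 := dent_cont t
  have h2 := chamf_cont t (1 / 2)
  unfold lo
  fun_prop

theorem hi_cont (t : ℝ) : Continuous (hi t) := by
  have h1 := bump_cont t
  have h2 := chamf_cont t (1 / 2)
  unfold hi
  fun_prop

theorem lf_cont (t : ℝ) : Continuous (lf t) := by
  have h1 := pit_cont (t ^ 3 - t ^ 4) (-t ^ 4)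
  have h2 := slit_cont t (1 - t ^ 3 / 4)
  have h3 := slit_cont t (1 - 3 * t ^ 3 / 4)
  have h4 := chamf_cont t (hh t)
  unfold lf
  fun_prop

theorem rt_cont (t : ℝ) : Continuous (rt t) := by
  have h1 := pit_cont (t ^ 3 / 2) (-t ^ 3)
  have h2 := pit_cont (t ^ 3 / 2) (t ^ 3)
  have h4 := chamf_cont t (hh t)
  unfold rt
  fun_prop

/-- the strict set -/
def str (t : ℝ) : Set ℂ :=
  {z : ℂ | lo t z.re < z.im ∧ z.im < hi t z.re ∧ lf t z.im < z.re ∧ z.re < rt t z.im}

theorem str_open (t : ℝ) : IsOpen (str t) := by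
  have h1 := Complex.continuous_re
  have h2 := Complex.continuous_im
  exact ((isOpen_lt ((lo_cont t).comp h1) h2).inter ((isOpen_lt h2 ((hi_cont t).comp h1)).inter
    ((isOpen_lt ((lf_cont t).comp h2) h1).inter (isOpen_lt h1 ((rt_cont t).comp h2)))))

theorem shape_closed (t : ℝ) : IsClosed (shape t) := by
  have h1 := Complex.continuous_re
  have h2 := Complex.continuous_im
  exact ((isClosed_le ((lo_cont t).comp h1) h2).inter
    ((isClosed_le h2 ((hi_cont t).comp h1)).inter
    ((isClosed_le ((lf_cont t).comp h2) h1).inter (isClosed_le h1 ((rt_cont t).comp h2)))))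

theorem str_sub (t : ℝ) : str t ⊆ interior (shape t) :=
  interior_maximal (fun _ ⟨h1, h2, h3, h4⟩ => ⟨h1.le, h2.le, h3.le, h4.le⟩) (str_open t)

theorem compact {t : ℝ} (ht : 0 < t) (h1 : t ≤ 1 / 2 ^ 60) : IsCompact (shape t) := by
  refine Metric.isCompact_of_isClosed_isBounded (shape_closed t) ?_
  rw [Metric.isBounded_iff_subset_closedBall 0]
  refine ⟨1 / 2 + (hh t + t ^ 3), ?_⟩
  intro z hz
  rw [mem_closedBall_zero_iff]
  obtain ⟨h2, h3⟩ := box ht h1 hz
  exact (Complex.norm_le_abs_re_add_abs_im z).trans (add_le_add h2 h3)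

/-- graphs have measure zero -/
theorem graph_swap {f : ℝ → ℝ} (hf : Continuous f) : volume {z : ℂ | z.re = f z.im} = 0 := by
  have h1 := Complex.volume_preserving_equiv_real_prod
  have hm : MeasurableSet {p : ℝ × ℝ | p.1 = f p.2} :=
    measurableSet_eq_fun measurable_fst (hf.measurable.comp measurable_snd)
  have e : {z : ℂ | z.re = f z.im} =
      Complex.measurableEquivRealProd ⁻¹' {p : ℝ × ℝ | p.1 = f p.2} := rfl
  rw [e, h1.measure_preimage hm.nullMeasurableSet, Measure.volume_eq_prod,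
    Measure.prod_apply_symm hm]
  have : ∀ y : ℝ, volume ((fun x => (x, y)) ⁻¹' {p : ℝ × ℝ | p.1 = f p.2}) = 0 := by
    intro y
    have : (fun x => (x, y)) ⁻¹' {p : ℝ × ℝ | p.1 = f p.2} = {f y} := by
      ext x
      simp
    rw [this]
    exact Real.volume_singleton
  simp_rw [this]
  exact MeasureTheory.lintegral_zero

theorem front (t : ℝ) : volume (frontier (shape t)) = 0 := by
  refine measure_mono_null (t := {z : ℂ | z.im = lo t z.re} ∪ {z : ℂ | z.im = hi t z.re} ∪
    {z : ℂ | z.re = lf t z.im} ∪ {z : ℂ | z.re = rt t z.im}) ?_ ?_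
  · rw [(shape_closed t).frontier_eq]
    rintro z ⟨⟨h1, h2, h3, h4⟩, h5⟩
    simp only [mem_union, Set.mem_ofPred_eq]
    by_contra hc
    push Not at hc
    obtain ⟨⟨⟨c1, c2⟩, c3⟩, c4⟩ := hc
    exact h5 (str_sub t ⟨lt_of_le_of_ne h1 (Ne.symm c1), lt_of_le_of_ne h2 c2,
      lt_of_le_of_ne h3 (Ne.symm c3), lt_of_le_of_ne h4 c4⟩)
  · rw [measure_union_null_iff, measure_union_null_iff, measure_union_null_iff]
    exact ⟨⟨⟨Pool.Agent.Helper2_Pack.volume_graph (lo_cont t),
      Pool.Agent.Helper2_Pack.volume_graph (hi_cont t)⟩, graph_swap (lf_cont t)⟩,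
      graph_swap (rt_cont t)⟩

/-- a point which is a limit of points of the strict set along a ray -/
theorem mem_cl {t : ℝ} {z w : ℂ} (h : ∀ᶠ s : ℝ in nhdsWithin (0 : ℝ) (Ioi 0), z + s * w ∈ str t) :
    z ∈ closure (str t) := by
  have hc : Filter.Tendsto (fun s : ℝ => z + s * w) (nhdsWithin (0 : ℝ) (Ioi 0)) (nhds z) := by
    have h1 : Continuous (fun s : ℝ => z + s * w) := by fun_prop
    have h2 := h1.tendsto 0
    simp only [Complex.ofReal_zero, zero_mul, add_zero] at h2
    exact h2.mono_left nhdsWithin_le_nhds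
  exact mem_closure_of_tendsto hc h

theorem ev_small {c : ℝ} (hc : 0 < c) :
    ∀ᶠ s : ℝ in nhdsWithin (0 : ℝ) (Ioi 0), 0 < s ∧ s < c :=
  Filter.Eventually.and self_mem_nhdsWithin
    (nhdsWithin_le_nhds (Iio_mem_nhds hc))

theorem ev_open {S : Set ℂ} (hS : IsOpen S) {z : ℂ} (hz : z ∈ S) (w : ℂ) :
    ∀ᶠ s : ℝ in nhdsWithin (0 : ℝ) (Ioi 0), z + s * w ∈ S := by
  have h1 : Continuous (fun s : ℝ => z + s * w) := by fun_prop
  have h2 := h1.tendsto 0
  simp only [Complex.ofReal_zero, zero_mul, add_zero] at h2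
  exact (h2.mono_left nhdsWithin_le_nhds).eventually (hS.mem_nhds hz)

/-- shrinking -/
theorem shr {t s x y H : ℝ} (s0 : 0 < s) (s1 : s < t) (hx : 1 / 2 - 2 * t ≤ x)
    (hy : H - 2 * t ≤ y) (px : 0 < x) (py : 0 < y) (b1 : x ≤ 1 / 2) (b2 : y ≤ H) (hH : H ≤ 1)
    (b3 : x + y ≤ H + 1 / 2 - t) :
    1 / 2 - 3 * t ≤ (1 - s) * x ∧ H - 3 * t ≤ (1 - s) * y ∧ (1 - s) * x < 1 / 2 ∧
      (1 - s) * y < H ∧ (1 - s) * x + (1 - s) * y < H + 1 / 2 - t := by
  have h1 := mul_pos s0 px
  have h2 := mul_pos s0 py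
  have h3 : s * x ≤ t := by nlinarith only [s0, s1, b1]
  have h4 : s * y ≤ t := by nlinarith only [s1, s0, b2, hH]
  refine ⟨by linarith, by linarith, by linarith, by linarith, by linarith⟩

theorem sub_cl {t : ℝ} (ht : 0 < t) (h1 : t ≤ 1 / 2 ^ 60) : shape t ⊆ closure (str t) := by
  intro z hz
  obtain ⟨b1, b2⟩ := box ht h1 hz
  obtain ⟨l1, l2⟩ := lo_lt_hi ht h1 b1
  have l3 := lf_lt_rt ht h1 b2
  obtain ⟨z1, z2, z3, z4⟩ := hz
  obtain ⟨p1, p2, p3, p4, p5, -⟩ := pw ht h1
  by_cases hA : lo t z.re < z.im ∧ z.im < hi t z.re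
  · -- move horizontally
    have hO : IsOpen {z : ℂ | lo t z.re < z.im ∧ z.im < hi t z.re} :=
      (isOpen_lt ((lo_cont t).comp Complex.continuous_re) Complex.continuous_im).inter
        (isOpen_lt Complex.continuous_im ((hi_cont t).comp Complex.continuous_re))
    rcases lt_or_ge z.re (rt t z.im) with h | h
    · refine mem_cl (w := 1) ?_
      filter_upwards [ev_open hO hA 1, ev_small (sub_pos.2 h)] with s hs1 hs2
      refine ⟨hs1.1, hs1.2, ?_, ?_⟩
      · simp
        linarith only [z3, hs2.1]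
      · simp
        linarith [hs2.2]
    · refine mem_cl (w := -1) ?_
      filter_upwards [ev_open hO hA (-1), ev_small (sub_pos.2 l3)] with s hs1 hs2
      refine ⟨hs1.1, hs1.2, ?_, ?_⟩
      · simp
        linarith [hs2.2]
      · simp
        linarith [hs2.1]
  by_cases hB : lf t z.im < z.re ∧ z.re < rt t z.im
  · have hO : IsOpen {z : ℂ | lf t z.im < z.re ∧ z.re < rt t z.im} :=
      (isOpen_lt ((lf_cont t).comp Complex.continuous_im) Complex.continuous_re).inter
        (isOpen_lt Complex.continuous_re ((rt_cont t).comp Complex.continuous_im))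
    rcases lt_or_ge z.im (hi t z.re) with h | h
    · refine mem_cl (w := Complex.I) ?_
      filter_upwards [ev_open hO hB Complex.I, ev_small (sub_pos.2 h)] with s hs1 hs2
      refine ⟨?_, ?_, hs1.1, hs1.2⟩
      · simp
        linarith [hs2.1]
      · simp
        linarith [hs2.2]
    · refine mem_cl (w := -Complex.I) ?_
      filter_upwards [ev_open hO hB (-Complex.I), ev_small (sub_pos.2 (l1.trans l2))] with
        s hs1 hs2
      refine ⟨?_, ?_, hs1.1, hs1.2⟩
      · simp
        linarith [hs2.2]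
      · simp
        linarith [hs2.1]
  -- the corners
  have hA' : z.im = lo t z.re ∨ z.im = hi t z.re := by
    by_contra hc
    push Not at hc
    exact hA ⟨lt_of_le_of_ne z1 (Ne.symm hc.1), lt_of_le_of_ne z2 hc.2⟩
  have hB' : z.re = lf t z.im ∨ z.re = rt t z.im := by
    by_contra hc
    push Not at hc
    exact hB ⟨lt_of_le_of_ne z3 (Ne.symm hc.1), lt_of_le_of_ne z4 hc.2⟩
  have hhh : 1 / 2 ≤ hh t := by unfold hh; linarith
  have c1 : chamf t (1 / 2) z.re ≤ t := max_le ht.le (by linarith)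
  have hy : hh t - 2 * t ≤ |z.im| := by
    rcases hA' with h | h
    · refine le_abs_of (Or.inr ?_)
      have := lo_le ht z.re
      linarith
    · refine le_abs_of (Or.inl ?_)
      have := le_hi t z.re
      linarith
  have c2 : chamf t (hh t) z.im ≤ 2 * t := max_le (by linarith) (by linarith)
  have hx : 1 / 2 - 2 * t ≤ |z.re| := by
    rcases hB' with h | h
    · refine le_abs_of (Or.inr ?_)
      have := lf_eq ht h1 (y := z.im) (by linarith)
      linarith only [c2, h, this]
    · refine le_abs_of (Or.inl ?_)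
      have := rt_eq ht h1 (y := z.im) (by linarith)
      linarith only [c2, h, this]
  -- the inequalities
  have e1 := lo_eq ht (x := z.re) (by linarith)
  have e2 := hi_eq ht h1 (x := z.re) (by linarith only [h1, hx])
  have e3 := lf_eq ht h1 (y := z.im) (by linarith only [h1, hhh, hy])
  have e4 := rt_eq ht h1 (y := z.im) (by linarith only [h1, hhh, hy])
  have f1 : |z.im| ≤ hh t - chamf t (1 / 2) z.re := abs_le.2 ⟨by linarith only [z1, e1], by linarith only [z2, e2]⟩
  have f2 : |z.re| ≤ 1 / 2 - chamf t (hh t) z.im := abs_le.2 ⟨by linarith only [z3, e3], by linarith only [z4, e4]⟩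
  have f3 : |z.im| ≤ hh t := by linarith only [f1, chamf_nonneg t (1 / 2) z.re]
  have f4 : |z.re| + |z.im| ≤ hh t + 1 / 2 - t := by linarith only [f1, le_chamf t (1 / 2) z.re]
  refine mem_cl (w := -z) ?_
  filter_upwards [ev_small ht] with s hs
  have r1 : (z + s * -z).re = (1 - s) * z.re := by simp; ring
  have r2 : (z + s * -z).im = (1 - s) * z.im := by simp; ring
  have s0 : 0 < 1 - s := by linarith only [h1, hs.1, hs.2]
  have hh1 : hh t ≤ 1 := by unfold hh; linarith only [h1, p3]
  have ax : |(1 - s) * z.re| = (1 - s) * |z.re| := by rw [abs_mul, abs_of_pos s0]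
  have ay : |(1 - s) * z.im| = (1 - s) * |z.im| := by rw [abs_mul, abs_of_pos s0]
  obtain ⟨nx, ny, q1, q2, q3⟩ := shr hs.1 hs.2 hx hy (by linarith only [h1, hx]) (by linarith only [h1, hhh, hy]) b1 f3 hh1 f4
  rw [← ax] at nx q1 q3
  rw [← ay] at ny q2 q3
  have g1 : chamf t (1 / 2) ((1 - s) * z.re) < hh t - |(1 - s) * z.im| :=
    max_lt (by linarith only [q2]) (by linarith only [q3])
  have g2 : chamf t (hh t) ((1 - s) * z.im) < 1 / 2 - |(1 - s) * z.re| :=
    max_lt (by linarith only [q1]) (by linarith only [q3])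
  show lo t (z + s * -z).re < (z + s * -z).im ∧ (z + s * -z).im < hi t (z + s * -z).re ∧
    lf t (z + s * -z).im < (z + s * -z).re ∧ (z + s * -z).re < rt t (z + s * -z).im
  rw [r1, r2, lo_eq ht (by linarith only [h1, nx]), hi_eq ht h1 (by linarith only [h1, nx]), lf_eq ht h1 (by linarith only [h1, hhh, ny]),
    rt_eq ht h1 (by linarith only [h1, hhh, ny])]
  have u1 := neg_abs_le ((1 - s) * z.re)
  have u2 := le_abs_self ((1 - s) * z.re)
  have u3 := neg_abs_le ((1 - s) * z.im)
  have u4 := le_abs_self ((1 - s) * z.im)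
  refine ⟨by linarith only [g1, u3], by linarith only [g1, u4], by linarith only [g2, u1], by linarith only [g2, u2]⟩

/-- S1 -/
theorem s1 : S1Stmt := fun _ ht h1 =>
  ⟨str_sub _, (sub_cl ht h1).trans (closure_mono (str_sub _)), compact ht h1, front _⟩

end Pool.Agent.Helper2_Pak.H54
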