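import Pool.Agent.Helper54_Pak.Base

/-!
# S2: the shape is nearly a unit square
-/

namespace Pool.Agent.Helper2_Pak.H54

open MeasureTheory Set
open Pool.Agent.Helper2_Pack (Motion)

/-- a closed box -/
def bx (a b c d : ℝ) : Set ℂ := {z : ℂ | a ≤ z.re ∧ z.re ≤ b ∧ c ≤ z.im ∧ z.im ≤ d}

theorem vol_bx {a b c d : ℝ} (h : a ≤ b) :
    volume (bx a b c d) = ENNReal.ofReal ((b - a) * (d - c)) := by
  have h1 := Complex.volume_preserving_equiv_real_prod
  have hm : MeasurableSet (Icc a b ×ˢ Icc c d : Set (ℝ × ℝ)) :=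
    measurableSet_Icc.prod measurableSet_Icc
  have e : bx a b c d = Complex.measurableEquivRealProd ⁻¹' (Icc a b ×ˢ Icc c d) := by
    ext z
    simp only [bx, Set.mem_ofPred_eq, mem_preimage, mem_prod, mem_Icc,
      Complex.measurableEquivRealProd_apply]
    tauto
  rw [e, h1.measure_preimage hm.nullMeasurableSet, Measure.volume_eq_prod, Measure.prod_prod,
    Real.volume_Icc, Real.volume_Icc, ← ENNReal.ofReal_mul (by linarith)]

/-- the core -/
theorem core_eq (t : ℝ) : {z : ℂ | |z.re| ≤ 1 / 2 - 2 * t ∧ |z.im| ≤ 1 / 2 - 2 * t} =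
    bx (-(1 / 2 - 2 * t)) (1 / 2 - 2 * t) (-(1 / 2 - 2 * t)) (1 / 2 - 2 * t) := by
  ext z
  simp only [bx, Set.mem_ofPred_eq, abs_le]
  tauto

theorem core_sub {t : ℝ} (ht : 0 < t) (h1 : t ≤ 1 / 2 ^ 60) :
    {z : ℂ | |z.re| ≤ 1 / 2 - 2 * t ∧ |z.im| ≤ 1 / 2 - 2 * t} \ shape t ⊆
      bx (-(1 / 2)) (1 / 2) (-(1 / 16) - 2 * t ^ 7) (-(1 / 16) + 2 * t ^ 7) ∪
        bx (-(1 / 2)) (1 / 2) (1 / 16 - 2 * t ^ 7) (1 / 16 + 2 * t ^ 7) := by
  rintro z ⟨⟨hx, hy⟩, hz⟩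
  obtain ⟨p1, p2, p3, p4, p5, p6, p7, p8, p9⟩ := pw ht h1
  obtain ⟨hx1, hx2⟩ := abs_le.1 hx
  obtain ⟨hy1, hy2⟩ := abs_le.1 hy
  have hhh : 1 / 2 ≤ hh t := by unfold hh; linarith
  by_contra hc
  apply hz
  simp only [mem_union, bx, Set.mem_ofPred_eq, not_or, not_and, not_le] at hc
  obtain ⟨hc1, hc2⟩ := hc
  have c1 := hc1 (by linarith) (by linarith)
  have c2 := hc2 (by linarith) (by linarith)
  have g1 : 2 * t ^ 7 ≤ |z.im + 1 / 16| := by
    by_contra hn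
    push Not at hn
    obtain ⟨u1, u2⟩ := abs_lt.1 hn
    have := c1 (by linarith)
    linarith
  have g2 : 2 * t ^ 7 ≤ |z.im - 1 / 16| := by
    by_contra hn
    push Not at hn
    obtain ⟨u1, u2⟩ := abs_lt.1 hn
    have := c2 (by linarith)
    linarith
  have k1 : chamf t (1 / 2) z.re = 0 := chamf_zero (by linarith)
  have k2 : chamf t (hh t) z.im = 0 := chamf_zero (by linarith)
  have a1 := lo_le ht z.re
  have a2 := le_hi t z.re
  have a3 := lf_le ht h1 g1 g2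
  have a4 := le_rt ht h1 z.im
  rw [k1] at a1 a2
  rw [k2] at a3 a4
  exact ⟨by linarith, by linarith, by linarith, by linarith⟩

theorem core_vol {t : ℝ} (ht : 0 < t) (h1 : t ≤ 1 / 2 ^ 60) :
    volume ({z : ℂ | |z.re| ≤ 1 / 2 - 2 * t ∧ |z.im| ≤ 1 / 2 - 2 * t} \ shape t) ≤
      ENNReal.ofReal (16 * t ^ 7) := by
  have p7 := pow_pos ht 7
  refine (measure_mono (core_sub ht h1)).trans ((measure_union_le _ _).trans ?_)
  rw [vol_bx (by norm_num), vol_bx (by norm_num), ← ENNReal.ofReal_add (by nlinarith)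
    (by nlinarith)]
  exact ENNReal.ofReal_le_ofReal (by nlinarith)

/-- S2 -/
theorem s2 : S2Stmt := by
  intro t ht h1
  obtain ⟨p1, p2, p3, p4, p5, p6, p7, p8, p9⟩ := pw ht h1
  have hhh : 1 / 2 ≤ hh t := by unfold hh; linarith
  refine ⟨fun z hz => ?_, core_vol ht h1, ?_⟩
  · obtain ⟨b1, b2⟩ := box ht h1 hz
    refine ⟨b1, b2, ?_⟩
    rcases le_total (17 / 64) |z.re| with h | h
    · obtain ⟨z1, z2, z3, z4⟩ := hz
      rw [lo_eq ht h] at z1
      rw [hi_eq ht h1 h] at z2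
      have h2 := le_chamf t (1 / 2) z.re
      have h3 : |z.im| ≤ hh t - chamf t (1 / 2) z.re := abs_le.2 ⟨by linarith, by linarith⟩
      linarith
    · linarith
  · have h2 := core_vol ht h1
    have h3 : volume {z : ℂ | |z.re| ≤ 1 / 2 - 2 * t ∧ |z.im| ≤ 1 / 2 - 2 * t} ≤
        volume (shape t) + ENNReal.ofReal (16 * t ^ 7) := by
      refine (measure_mono (t := shape t ∪
        ({z : ℂ | |z.re| ≤ 1 / 2 - 2 * t ∧ |z.im| ≤ 1 / 2 - 2 * t} \ shape t)) ?_).trans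
        ((measure_union_le _ _).trans (add_le_add le_rfl h2))
      intro z hz
      by_cases h : z ∈ shape t
      · exact Or.inl h
      · exact Or.inr ⟨hz, h⟩
    rw [core_eq, vol_bx (by linarith)] at h3
    have h4 : ENNReal.ofReal (1 - 16 * t) + ENNReal.ofReal (16 * t ^ 7) ≤
        ENNReal.ofReal ((1 / 2 - 2 * t - -(1 / 2 - 2 * t)) * (1 / 2 - 2 * t - -(1 / 2 - 2 * t))) := by
      rw [← ENNReal.ofReal_add (by linarith) (by linarith)]
      refine ENNReal.ofReal_le_ofReal ?_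
      nlinarith
    have h5 := h4.trans h3
    exact (ENNReal.add_le_add_iff_right ENNReal.ofReal_ne_top).1 h5

end Pool.Agent.Helper2_Pak.H54
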