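import Pool.Agent.Helper2_Pak.StmtsT
import Pool.Agent.Helper91_Pack.T1

/-!
# T1: the word of a rational number with given digits
-/

namespace Pool.Agent.Helper2_Pak.H54

open Pool.Agent.Helper2_Pack
open Pool.Agent.Helper91_Pack (bits_two bits_mul)

theorem fixN_succ (n k : ℕ) : fixN (n + 1) k = (if k.testBit 0 then .one else .zero) ::
    fixN n (k / 2) := by
  unfold fixN
  rcases Nat.eq_zero_or_pos k with rfl | hk
  · simp [bits, List.replicate_succ]
  · rw [bits_two k hk, List.cons_append, List.take_succ_cons]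
    congr 1
    rw [List.take_append, List.take_append, List.take_replicate, List.take_replicate]
    congr 2
    omega

theorem bitsN_add (r : ℕ) (hr : 0 < r) : ∀ (n k : ℕ), k < 2 ^ n →
    bits (k + 2 ^ n * r) = fixN n k ++ bits r
  | 0, k, h => by
    have : k = 0 := by simpa using h
    subst this
    simp [fixN]
  | n + 1, k, h => by
    rw [fixN_succ, List.cons_append, ← bitsN_add r hr n (k / 2) (by
      rw [pow_succ] at h
      omega)]
    have h1 : 0 < 2 ^ (n + 1) * r := by positivity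
    rw [bits_two _ (by omega)]
    have h2 : k + 2 ^ (n + 1) * r = k + 2 * (2 ^ n * r) := by ring
    rw [h2]
    congr 1
    · rw [Nat.testBit_zero, Nat.testBit_zero, Nat.add_mul_mod_self_left]
    · congr 1
      omega

/-- the numerator -/
def numT (m : ℕ) (d : ℕ → ℕ) : ℕ :=
  d 8 + 2 ^ m * (d 7 + 2 ^ m * (d 6 + 2 ^ m * (d 5 + 2 ^ m * (d 4 + 2 ^ m * (d 3 + 2 ^ m *
    (d 2 + 2 ^ m * (d 1 + 2 ^ m * d 0)))))))

theorem bits_numT (m : ℕ) (d : ℕ → ℕ) (h : DigOK m d) : bits (numT m d) =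
    fixN m (d 8) ++ fixN m (d 7) ++ fixN m (d 6) ++ fixN m (d 5) ++ fixN m (d 4) ++
    fixN m (d 3) ++ fixN m (d 2) ++ fixN m (d 1) ++ bits (d 0) := by
  obtain ⟨h0, -, h1⟩ := h
  have p0 : 0 < 2 ^ m := by positivity
  have q1 : 0 < d 1 + 2 ^ m * d 0 := by positivity
  have q2 : 0 < d 2 + 2 ^ m * (d 1 + 2 ^ m * d 0) := by positivity
  have q3 : 0 < d 3 + 2 ^ m * (d 2 + 2 ^ m * (d 1 + 2 ^ m * d 0)) := by positivity
  have q4 : 0 < d 4 + 2 ^ m * (d 3 + 2 ^ m * (d 2 + 2 ^ m * (d 1 + 2 ^ m * d 0))) := by positivity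
  have q5 : 0 < d 5 + 2 ^ m * (d 4 + 2 ^ m * (d 3 + 2 ^ m * (d 2 + 2 ^ m *
    (d 1 + 2 ^ m * d 0)))) := by positivity
  have q6 : 0 < d 6 + 2 ^ m * (d 5 + 2 ^ m * (d 4 + 2 ^ m * (d 3 + 2 ^ m * (d 2 + 2 ^ m *
    (d 1 + 2 ^ m * d 0))))) := by positivity
  have q7 : 0 < d 7 + 2 ^ m * (d 6 + 2 ^ m * (d 5 + 2 ^ m * (d 4 + 2 ^ m * (d 3 + 2 ^ m *
    (d 2 + 2 ^ m * (d 1 + 2 ^ m * d 0)))))) := by positivity
  unfold numT
  rw [bitsN_add _ q7 m _ (h1 8 (by norm_num) (by norm_num)),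
    bitsN_add _ q6 m _ (h1 7 (by norm_num) (by norm_num)),
    bitsN_add _ q5 m _ (h1 6 (by norm_num) (by norm_num)),
    bitsN_add _ q4 m _ (h1 5 (by norm_num) (by norm_num)),
    bitsN_add _ q3 m _ (h1 4 (by norm_num) (by norm_num)),
    bitsN_add _ q2 m _ (h1 3 (by norm_num) (by norm_num)),
    bitsN_add _ q1 m _ (h1 2 (by norm_num) (by norm_num)),
    bitsN_add _ h0 m _ (h1 1 (by norm_num) (by norm_num))]
  simp only [List.append_assoc]

theorem numT_val (m : ℕ) (d : ℕ → ℕ) :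
    digVal m d = ((numT m d : ℤ) : ℚ) / ((2 ^ (8 * m + 8) : ℤ) : ℚ) := by
  unfold numT digVal
  simp only [Finset.sum_range_succ, Finset.sum_range_zero]
  push_cast
  have h1 : ((1 : ℚ) / 2) ^ m = 1 / 2 ^ m := by rw [one_div_pow]
  have h2 : (2 : ℚ) ^ (8 * m + 8) = (2 ^ m) ^ 8 * 256 := by
    rw [pow_add, pow_mul']
    norm_num
  have h3 : (2 : ℚ) ^ m ≠ 0 := by positivity
  rw [h1, h2]
  field_simp
  ring

/-- T1 -/
theorem t1 : T1Stmt := by
  intro m d hm hd
  have hnum := bits_numT m d hd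
  have hodd : (numT m d) % 2 = 1 := by
    obtain ⟨s, rfl⟩ : ∃ s, m = s + 1 := ⟨m - 1, by omega⟩
    unfold numT
    rw [show (2 : ℕ) ^ (s + 1) = 2 * 2 ^ s by ring, mul_assoc, Nat.add_mul_mod_self_left]
    exact hd.2.1
  have hco : Nat.Coprime ((numT m d : ℤ)).natAbs ((2 ^ (8 * m + 8) : ℤ)).natAbs := by
    rw [Int.natAbs_natCast, Int.natAbs_pow]
    exact (Nat.coprime_pow_right_iff (by omega) _ _).2 (Nat.coprime_two_right.2
      (Nat.odd_iff.2 hodd))
  have hn : (digVal m d).num = (numT m d : ℤ) := by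
    rw [numT_val m d]
    exact Rat.num_div_eq_of_coprime (by positivity) hco
  have hden : (digVal m d).den = 2 ^ (8 * m + 8) := by
    rw [numT_val m d]
    have := Rat.den_div_eq_of_coprime (a := (numT m d : ℤ)) (b := (2 ^ (8 * m + 8) : ℤ))
      (by positivity) hco
    exact_mod_cast this
  unfold encRat
  rw [hn, hden, if_neg (by omega), Int.natAbs_natCast, hnum]
  have h2 := bits_mul 1 one_pos (8 * m + 8)
  rw [Nat.mul_one] at h2
  rw [h2]
  have h3 : bits 1 = [.one] := by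
    rw [bits_two 1 one_pos]
    simp [bits]
  rw [h3]
  unfold digWord
  simp only [List.append_assoc, List.cons_append, List.nil_append]

end Pool.Agent.Helper2_Pak.H54
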