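import Pool.Agent.Helper2_Pak.Stmts

/-!
# Elementary facts about the sides of the shape
-/

namespace Pool.Agent.Helper2_Pak.H54

open MeasureTheory Set
open Pool.Agent.Helper2_Pack (Motion)

/-- small powers -/
theorem pw {t : ℝ} (ht : 0 < t) (h1 : t ≤ 1 / 2 ^ 60) :
    t ≤ 1 / 1024 ∧ 0 < t ^ 2 ∧ t ^ 2 ≤ t / 1024 ∧ 0 < t ^ 3 ∧ t ^ 3 ≤ t / 1024 ∧ 0 < t ^ 4 ∧
      t ^ 4 ≤ t ^ 3 / 1024 ∧ 0 < t ^ 7 ∧ t ^ 7 ≤ t ^ 3 / 1024 := by
  have h2 : t ≤ 1 / 1024 := h1.trans (by norm_num)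
  have p2 : t ^ 2 ≤ t / 1024 := by nlinarith
  have p3 : t ^ 3 ≤ t ^ 2 / 1024 := by nlinarith [pow_pos ht 2]
  have p4 : t ^ 4 ≤ t ^ 3 / 1024 := by nlinarith [pow_pos ht 3]
  have p5 : t ^ 5 ≤ t ^ 4 / 1024 := by nlinarith [pow_pos ht 4]
  have p6 : t ^ 6 ≤ t ^ 5 / 1024 := by nlinarith [pow_pos ht 5]
  have p7 : t ^ 7 ≤ t ^ 6 / 1024 := by nlinarith [pow_pos ht 6]
  have q2 := pow_pos ht 2
  have q3 := pow_pos ht 3
  have q4 := pow_pos ht 4
  have q5 := pow_pos ht 5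
  have q6 := pow_pos ht 6
  have q7 := pow_pos ht 7
  refine ⟨h2, q2, p2, q3, by linarith, q4, p4, q7, by linarith⟩

theorem bump_nonneg (t e : ℝ) : 0 ≤ bump t e := le_max_left _ _

theorem bump_le {t : ℝ} (ht : 0 < t) (e : ℝ) : bump t e ≤ t ^ 3 := by
  refine max_le (pow_pos ht 3).le ?_
  linarith [abs_nonneg e]

theorem bump_zero {t e : ℝ} (h : t ^ 3 ≤ |e|) : bump t e = 0 :=
  max_eq_left (by linarith)

theorem dent_nonneg (t e : ℝ) : 0 ≤ dent t e := le_max_left _ _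

theorem dent_le {t : ℝ} (ht : 0 < t) (e : ℝ) : dent t e ≤ 2 * t ^ 3 := by
  have h := pow_pos ht 3
  refine max_le (by positivity) ?_
  nlinarith [abs_nonneg e]

theorem dent_zero {t e : ℝ} (ht : 0 < t) (h : 1 / 64 ≤ |e|) : dent t e = 0 := by
  have h := pow_pos ht 3
  refine max_eq_left ?_
  nlinarith [abs_nonneg e]

theorem chamf_nonneg (t w e : ℝ) : 0 ≤ chamf t w e := le_max_left _ _

theorem chamf_zero {t w e : ℝ} (h : |e| ≤ w - t) : chamf t w e = 0 :=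
  max_eq_left (by linarith)

theorem le_chamf (t w e : ℝ) : |e| - (w - t) ≤ chamf t w e := le_max_right _ _

theorem pit_nonneg (a b e : ℝ) : 0 ≤ pit a b e := le_max_left _ _

theorem pit_le {a b e c : ℝ} (hc : 0 ≤ c) (h : |b| / 64 + a ≤ c) (hab : |b| / 128 ≤ a) :
    pit a b e ≤ c := by
  refine max_le hc ?_
  rcases le_total e (1 / 64) with h1 | h1
  · rcases le_total (-(1 / 64)) e with h2 | h2
    · refine (min_le_left _ _).trans ?_
      have h3 : b * e ≤ |b| / 64 := by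
        have h4 : b * e ≤ |b * e| := le_abs_self _
        rw [abs_mul] at h4
        have h5 : |e| ≤ 1 / 64 := abs_le.2 ⟨by linarith, h1⟩
        nlinarith [abs_nonneg b]
      linarith
    · refine ((min_le_right _ _).trans (min_le_right _ _)).trans ?_
      have h3 : 0 ≤ a - b / 128 := by linarith [le_abs_self b]
      nlinarith
  · refine ((min_le_right _ _).trans (min_le_left _ _)).trans ?_
    have h3 : 0 ≤ a + b / 128 := by linarith [neg_abs_le b]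
    nlinarith

theorem pit_zero {a b e : ℝ} (hab : |b| / 128 ≤ a) (h : 1 / 64 ≤ |e|) : pit a b e = 0 := by
  refine max_eq_left ?_
  rcases le_total 0 e with h1 | h1
  · rw [abs_of_nonneg h1] at h
    refine ((min_le_right _ _).trans (min_le_left _ _)).trans ?_
    have h3 : 0 ≤ a + b / 128 := by linarith [neg_abs_le b]
    nlinarith
  · rw [abs_of_nonpos h1] at h
    refine ((min_le_right _ _).trans (min_le_right _ _)).trans ?_
    have h3 : 0 ≤ a - b / 128 := by linarith [le_abs_self b]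
    nlinarith

theorem slit_nonneg (t d e : ℝ) : 0 ≤ slit t d e := le_max_left _ _

theorem slit_le {t d : ℝ} (ht : 0 < t) (hd : 0 ≤ d) (e : ℝ) : slit t d e ≤ d := by
  have h := pow_pos ht 7
  refine max_le hd ?_
  have : 0 ≤ |e| / (2 * t ^ 7) := by positivity
  nlinarith

theorem slit_zero {t d e : ℝ} (ht : 0 < t) (hd : 0 ≤ d) (h : 2 * t ^ 7 ≤ |e|) :
    slit t d e = 0 := by
  have h7 := pow_pos ht 7
  refine max_eq_left ?_
  have : 1 ≤ |e| / (2 * t ^ 7) := by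
    rw [le_div_iff₀ (by positivity)]
    linarith
  nlinarith

/-- a lower bound for absolute values -/
theorem le_abs_of {c e : ℝ} (h : c ≤ e ∨ e ≤ -c) : c ≤ |e| := by
  rcases h with h | h
  · exact h.trans (le_abs_self e)
  · have := neg_abs_le e
    linarith

theorem lo_le {t : ℝ} (ht : 0 < t) (x : ℝ) : lo t x ≤ -hh t + 4 * t ^ 3 + chamf t (1 / 2) x := by
  have h1 := dent_le ht (x + 1 / 4)
  have h2 := dent_le ht (x - 1 / 4)
  unfold lo
  linarith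

theorem le_lo (t x : ℝ) : -hh t + chamf t (1 / 2) x ≤ lo t x := by
  have h1 := dent_nonneg t (x + 1 / 4)
  have h2 := dent_nonneg t (x - 1 / 4)
  unfold lo
  linarith

theorem le_hi (t x : ℝ) : hh t - chamf t (1 / 2) x ≤ hi t x := by
  have h1 := bump_nonneg t (x + 1 / 4)
  have h2 := bump_nonneg t (x - 1 / 4)
  unfold hi
  linarith

theorem hi_le {t : ℝ} (ht : 0 < t) (h1 : t ≤ 1 / 2 ^ 60) (x : ℝ) :
    hi t x ≤ hh t + t ^ 3 - chamf t (1 / 2) x := by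
  obtain ⟨p1, p2, p3, p4, p5, -⟩ := pw ht h1
  unfold hi
  rcases le_total 0 x with h | h
  · rw [bump_zero (e := x + 1 / 4) (le_abs_of (Or.inl (by linarith)))]
    linarith [bump_le ht (x - 1 / 4)]
  · rw [bump_zero (e := x - 1 / 4) (le_abs_of (Or.inr (by linarith)))]
    linarith [bump_le ht (x + 1 / 4)]

/-- far from the axis the bumps and the dents vanish -/
theorem lo_eq {t x : ℝ} (ht : 0 < t) (h : 17 / 64 ≤ |x|) :
    lo t x = -hh t + chamf t (1 / 2) x := by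
  unfold lo
  rcases le_abs.1 h with h | h
  · rw [dent_zero ht (e := x + 1 / 4) (le_abs_of (Or.inl (by linarith))),
      dent_zero ht (e := x - 1 / 4) (le_abs_of (Or.inl (by linarith)))]
    ring
  · rw [dent_zero ht (e := x + 1 / 4) (le_abs_of (Or.inr (by linarith))),
      dent_zero ht (e := x - 1 / 4) (le_abs_of (Or.inr (by linarith)))]
    ring

theorem hi_eq {t x : ℝ} (ht : 0 < t) (h1 : t ≤ 1 / 2 ^ 60) (h : 17 / 64 ≤ |x|) :
    hi t x = hh t - chamf t (1 / 2) x := by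
  obtain ⟨p1, p2, p3, p4, p5, -⟩ := pw ht h1
  unfold hi
  rcases le_abs.1 h with h | h
  · rw [bump_zero (e := x + 1 / 4) (le_abs_of (Or.inl (by linarith))),
      bump_zero (e := x - 1 / 4) (le_abs_of (Or.inl (by linarith)))]
    ring
  · rw [bump_zero (e := x + 1 / 4) (le_abs_of (Or.inr (by linarith))),
      bump_zero (e := x - 1 / 4) (le_abs_of (Or.inr (by linarith)))]
    ring

/-- the parameters of the pits and slits -/
theorem par {t : ℝ} (ht : 0 < t) (h1 : t ≤ 1 / 2 ^ 60) :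
    |(-t ^ 4)| / 128 ≤ t ^ 3 - t ^ 4 ∧ |(-t ^ 3)| / 128 ≤ t ^ 3 / 2 ∧
      |(t ^ 3)| / 128 ≤ t ^ 3 / 2 ∧ |(-t ^ 4)| / 64 + (t ^ 3 - t ^ 4) ≤ 2 * t ^ 3 ∧
      |(-t ^ 3)| / 64 + t ^ 3 / 2 ≤ t ^ 3 ∧ |(t ^ 3)| / 64 + t ^ 3 / 2 ≤ t ^ 3 ∧
      0 ≤ 1 - t ^ 3 / 4 ∧ 0 ≤ 1 - 3 * t ^ 3 / 4 := by
  obtain ⟨p1, p2, p3, p4, p5, p6, p7, -⟩ := pw ht h1
  rw [abs_neg, abs_neg, abs_of_pos p6, abs_of_pos p4]
  refine ⟨?_, ?_, ?_, ?_, ?_, ?_, ?_, ?_⟩ <;> linarith

theorem le_lf (t y : ℝ) : -1 / 2 + chamf t (hh t) y ≤ lf t y := by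
  have h1 := pit_nonneg (t ^ 3 - t ^ 4) (-t ^ 4) (y + 1 / 4)
  have h2 := pit_nonneg (t ^ 3 - t ^ 4) (-t ^ 4) (y - 1 / 4)
  have h3 := slit_nonneg t (1 - t ^ 3 / 4) (y + 1 / 16)
  have h4 := slit_nonneg t (1 - 3 * t ^ 3 / 4) (y - 1 / 16)
  unfold lf
  linarith

theorem rt_le (t y : ℝ) : rt t y ≤ 1 / 2 - chamf t (hh t) y := by
  have h1 := pit_nonneg (t ^ 3 / 2) (-t ^ 3) (y + 5 / 16)
  have h2 := pit_nonneg (t ^ 3 / 2) (t ^ 3) (y + 3 / 16)
  have h3 := pit_nonneg (t ^ 3 / 2) (t ^ 3) (y - 3 / 16)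
  have h4 := pit_nonneg (t ^ 3 / 2) (-t ^ 3) (y - 5 / 16)
  unfold rt
  linarith

theorem le_rt {t : ℝ} (ht : 0 < t) (h1 : t ≤ 1 / 2 ^ 60) (y : ℝ) :
    1 / 2 - 4 * t ^ 3 - chamf t (hh t) y ≤ rt t y := by
  obtain ⟨a1, a2, a3, a4, a5, a6, a7, a8⟩ := par ht h1
  have p3 := (pow_pos ht 3).le
  have h1 := pit_le p3 a5 a2 (e := y + 5 / 16)
  have h2 := pit_le p3 a6 a3 (e := y + 3 / 16)
  have h3 := pit_le p3 a6 a3 (e := y - 3 / 16)
  have h4 := pit_le p3 a5 a2 (e := y - 5 / 16)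
  unfold rt
  linarith

/-- away from the slits -/
theorem lf_le {t y : ℝ} (ht : 0 < t) (h1 : t ≤ 1 / 2 ^ 60) (h2 : 2 * t ^ 7 ≤ |y + 1 / 16|)
    (h3 : 2 * t ^ 7 ≤ |y - 1 / 16|) : lf t y ≤ -1 / 2 + 4 * t ^ 3 + chamf t (hh t) y := by
  obtain ⟨a1, a2, a3, a4, a5, a6, a7, a8⟩ := par ht h1
  have p3 : 0 ≤ 2 * t ^ 3 := by positivity
  have h4 := pit_le p3 a4 a1 (e := y + 1 / 4)
  have h5 := pit_le p3 a4 a1 (e := y - 1 / 4)
  unfold lf
  rw [slit_zero ht a7 h2, slit_zero ht a8 h3]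
  linarith

/-- at the slits -/
theorem lf_slit {t y : ℝ} (ht : 0 < t) (h1 : t ≤ 1 / 2 ^ 60)
    (h : |y + 1 / 16| < 2 * t ^ 7 ∨ |y - 1 / 16| < 2 * t ^ 7) :
    lf t y ≤ 1 / 2 - t ^ 3 / 4 ∧ rt t y = 1 / 2 := by
  obtain ⟨p1, p2, p3, p4, p5, p6, p7, p8, p9⟩ := pw ht h1
  obtain ⟨a1, a2, a3, a4, a5, a6, a7, a8⟩ := par ht h1
  have hy : |y| ≤ 1 / 8 := by
    rcases h with h | h
    · obtain ⟨h2, h3⟩ := abs_lt.1 h
      exact abs_le.2 ⟨by linarith, by linarith⟩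
    · obtain ⟨h2, h3⟩ := abs_lt.1 h
      exact abs_le.2 ⟨by linarith, by linarith⟩
  obtain ⟨hy1, hy2⟩ := abs_le.1 hy
  have hc : chamf t (hh t) y = 0 := chamf_zero (by unfold hh; linarith)
  constructor
  · unfold lf
    rw [pit_zero a1 (e := y + 1 / 4) (le_abs_of (Or.inl (by linarith))),
      pit_zero a1 (e := y - 1 / 4) (le_abs_of (Or.inr (by linarith))), hc]
    rcases h with h | h
    · obtain ⟨h2, h3⟩ := abs_lt.1 h
      rw [slit_zero ht a8 (e := y - 1 / 16) (le_abs_of (Or.inr (by linarith)))]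
      linarith [slit_le ht a7 (y + 1 / 16)]
    · obtain ⟨h2, h3⟩ := abs_lt.1 h
      rw [slit_zero ht a7 (e := y + 1 / 16) (le_abs_of (Or.inl (by linarith)))]
      linarith [slit_le ht a8 (y - 1 / 16)]
  · unfold rt
    rw [pit_zero a2 (e := y + 5 / 16) (le_abs_of (Or.inl (by linarith))),
      pit_zero a3 (e := y + 3 / 16) (le_abs_of (Or.inl (by linarith))),
      pit_zero a3 (e := y - 3 / 16) (le_abs_of (Or.inr (by linarith))),
      pit_zero a2 (e := y - 5 / 16) (le_abs_of (Or.inr (by linarith))), hc]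
    ring

/-- far from the axis the pits and slits vanish -/
theorem lf_eq {t y : ℝ} (ht : 0 < t) (h1 : t ≤ 1 / 2 ^ 60) (h : 3 / 8 ≤ |y|) :
    lf t y = -1 / 2 + chamf t (hh t) y := by
  obtain ⟨p1, p2, p3, p4, p5, p6, p7, p8, p9⟩ := pw ht h1
  obtain ⟨a1, a2, a3, a4, a5, a6, a7, a8⟩ := par ht h1
  unfold lf
  rcases le_abs.1 h with h | h
  · rw [pit_zero a1 (e := y + 1 / 4) (le_abs_of (Or.inl (by linarith))),
      pit_zero a1 (e := y - 1 / 4) (le_abs_of (Or.inl (by linarith))),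
      slit_zero ht a7 (e := y + 1 / 16) (le_abs_of (Or.inl (by linarith))),
      slit_zero ht a8 (e := y - 1 / 16) (le_abs_of (Or.inl (by linarith)))]
    ring
  · rw [pit_zero a1 (e := y + 1 / 4) (le_abs_of (Or.inr (by linarith))),
      pit_zero a1 (e := y - 1 / 4) (le_abs_of (Or.inr (by linarith))),
      slit_zero ht a7 (e := y + 1 / 16) (le_abs_of (Or.inr (by linarith))),
      slit_zero ht a8 (e := y - 1 / 16) (le_abs_of (Or.inr (by linarith)))]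
    ring

theorem rt_eq {t y : ℝ} (ht : 0 < t) (h1 : t ≤ 1 / 2 ^ 60) (h : 3 / 8 ≤ |y|) :
    rt t y = 1 / 2 - chamf t (hh t) y := by
  obtain ⟨p1, p2, p3, p4, p5, p6, p7, p8, p9⟩ := pw ht h1
  obtain ⟨a1, a2, a3, a4, a5, a6, a7, a8⟩ := par ht h1
  unfold rt
  rcases le_abs.1 h with h | h
  · rw [pit_zero a2 (e := y + 5 / 16) (le_abs_of (Or.inl (by linarith))),
      pit_zero a3 (e := y + 3 / 16) (le_abs_of (Or.inl (by linarith))),
      pit_zero a3 (e := y - 3 / 16) (le_abs_of (Or.inl (by linarith))),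
      pit_zero a2 (e := y - 5 / 16) (le_abs_of (Or.inl (by linarith)))]
    ring
  · rw [pit_zero a2 (e := y + 5 / 16) (le_abs_of (Or.inr (by linarith))),
      pit_zero a3 (e := y + 3 / 16) (le_abs_of (Or.inr (by linarith))),
      pit_zero a3 (e := y - 3 / 16) (le_abs_of (Or.inr (by linarith))),
      pit_zero a2 (e := y - 5 / 16) (le_abs_of (Or.inr (by linarith)))]
    ring

/-- the crude box -/
theorem box {t : ℝ} (ht : 0 < t) (h1 : t ≤ 1 / 2 ^ 60) {z : ℂ} (hz : z ∈ shape t) :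
    |z.re| ≤ 1 / 2 ∧ |z.im| ≤ hh t + t ^ 3 := by
  obtain ⟨z1, z2, z3, z4⟩ := hz
  have a1 := le_lf t z.im
  have a2 := rt_le t z.im
  have a3 := chamf_nonneg t (hh t) z.im
  have a4 := le_lo t z.re
  have a5 := hi_le ht h1 z.re
  have a6 := chamf_nonneg t (1 / 2) z.re
  have a7 := pow_pos ht 3
  exact ⟨abs_le.2 ⟨by linarith, by linarith⟩, abs_le.2 ⟨by linarith, by linarith⟩⟩

/-- the lower side is below the upper side -/
theorem lo_lt_hi {t x : ℝ} (ht : 0 < t) (h1 : t ≤ 1 / 2 ^ 60) (h : |x| ≤ 1 / 2) :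
    lo t x < 0 ∧ 0 < hi t x := by
  obtain ⟨p1, p2, p3, p4, p5, -⟩ := pw ht h1
  have a1 := lo_le ht x
  have a2 := le_hi t x
  have a3 : chamf t (1 / 2) x ≤ t := max_le ht.le (by linarith)
  have a4 : 1 / 2 ≤ hh t := by unfold hh; linarith
  exact ⟨by linarith, by linarith⟩

/-- the left side is on the left of the right side -/
theorem lf_lt_rt {t y : ℝ} (ht : 0 < t) (h1 : t ≤ 1 / 2 ^ 60) (h : |y| ≤ hh t + t ^ 3) :
    lf t y < rt t y := by
  obtain ⟨p1, p2, p3, p4, p5, -⟩ := pw ht h1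
  by_cases hs : |y + 1 / 16| < 2 * t ^ 7 ∨ |y - 1 / 16| < 2 * t ^ 7
  · obtain ⟨a1, a2⟩ := lf_slit ht h1 hs
    rw [a2]
    linarith
  · push Not at hs
    have a1 := lf_le ht h1 hs.1 hs.2
    have a2 := le_rt ht h1 y
    have a3 : chamf t (hh t) y ≤ 2 * t := max_le (by linarith) (by linarith)
    linarith

end Pool.Agent.Helper2_Pak.H54
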