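import Pool.Agent.Helper54_Pak.Base
import Pool.Agent.Helper2_Pak.StmtsP
import Pool.Agent.Helper2_Pak.Cast

/-!
# P1a: the sides of the shape as chains
-/

namespace Pool.Agent.Helper2_Pak.H54

open MeasureTheory Set
open Pool.Agent.Helper2_Pack (Polygon pt Crosses region IsSimple chainVal)

/-! ### Values of the features -/

theorem dent_l {t e : ℝ} (ht : 0 < t) (h1 : -(1 / 64) ≤ e) (h2 : e ≤ 0) :
    dent t e = 2 * t ^ 3 * (1 + 64 * e) := by
  have h := pow_pos ht 3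
  unfold dent
  rw [abs_of_nonpos h2, max_eq_right (by nlinarith only [h1, h])]
  ring

theorem dent_r {t e : ℝ} (ht : 0 < t) (h1 : 0 ≤ e) (h2 : e ≤ 1 / 64) :
    dent t e = 2 * t ^ 3 * (1 - 64 * e) := by
  have h := pow_pos ht 3
  unfold dent
  rw [abs_of_nonneg h1, max_eq_right (by nlinarith only [h2, h])]

theorem bump_l {t e : ℝ} (h1 : -(t ^ 3) ≤ e) (h2 : e ≤ 0) : bump t e = t ^ 3 + e := by
  unfold bump
  rw [abs_of_nonpos h2, max_eq_right (by linarith only [h1])]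
  ring

theorem bump_r {t e : ℝ} (h1 : 0 ≤ e) (h2 : e ≤ t ^ 3) : bump t e = t ^ 3 - e := by
  unfold bump
  rw [abs_of_nonneg h1, max_eq_right (by linarith)]

theorem chamf_l {t w e : ℝ} (h0 : 0 ≤ w - t) (h1 : e ≤ -(w - t)) :
    chamf t w e = -e - (w - t) := by
  unfold chamf
  rw [abs_of_nonpos (by linarith), max_eq_right (by linarith)]

theorem chamf_r {t w e : ℝ} (h0 : 0 ≤ w - t) (h1 : w - t ≤ e) : chamf t w e = e - (w - t) := by
  unfold chamf
  rw [abs_of_nonneg (by linarith), max_eq_right (by linarith)]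

theorem slit_l {t d e : ℝ} (ht : 0 < t) (hd : 0 ≤ d) (h1 : -(2 * t ^ 7) ≤ e) (h2 : e ≤ 0) :
    slit t d e = d * (1 + e / (2 * t ^ 7)) := by
  have h := pow_pos ht 7
  unfold slit
  rw [abs_of_nonpos h2]
  have h3 : -e / (2 * t ^ 7) ≤ 1 := by
    rw [div_le_one (by positivity)]
    linarith
  rw [max_eq_right (mul_nonneg hd (by linarith))]
  ring

theorem slit_r {t d e : ℝ} (ht : 0 < t) (hd : 0 ≤ d) (h1 : 0 ≤ e) (h2 : e ≤ 2 * t ^ 7) :
    slit t d e = d * (1 - e / (2 * t ^ 7)) := by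
  have h := pow_pos ht 7
  unfold slit
  rw [abs_of_nonneg h1]
  have h3 : e / (2 * t ^ 7) ≤ 1 := by
    rw [div_le_one (by positivity)]
    linarith
  rw [max_eq_right (mul_nonneg hd (by linarith only [h3]))]

theorem pit_m {a b e : ℝ} (hab : |b| / 64 ≤ a) (h1 : -(1 / 128) ≤ e) (h2 : e ≤ 1 / 128) :
    pit a b e = a + b * e := by
  obtain ⟨k1, k2⟩ := abs_le.1 (show |b| ≤ 64 * a by linarith)
  unfold pit
  have h3 : a + b * e ≤ (a + b / 128) * (2 - 128 * e) := by nlinarith only [h2, k1]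
  have h4 : a + b * e ≤ (a - b / 128) * (2 + 128 * e) := by nlinarith only [h1, k2]
  rw [min_eq_left (le_min h3 h4), max_eq_right]
  nlinarith only [k1, k2, h1, h2]

theorem pit_r {a b e : ℝ} (hab : |b| / 64 ≤ a) (h1 : 1 / 128 ≤ e) (h2 : e ≤ 1 / 64) :
    pit a b e = (a + b / 128) * (2 - 128 * e) := by
  obtain ⟨k1, k2⟩ := abs_le.1 (show |b| ≤ 64 * a by linarith)
  have ha : 0 ≤ a := by linarith [abs_nonneg b]
  unfold pit
  have h3 : (a + b / 128) * (2 - 128 * e) ≤ a + b * e := by nlinarith only [h1, k1]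
  have h4 : (a + b / 128) * (2 - 128 * e) ≤ (a - b / 128) * (2 + 128 * e) := by nlinarith only [k2, h3, h1]
  rw [min_eq_left h4, min_eq_right h3, max_eq_right]
  nlinarith only [h2, k1, k2]

theorem pit_l {a b e : ℝ} (hab : |b| / 64 ≤ a) (h1 : -(1 / 64) ≤ e) (h2 : e ≤ -(1 / 128)) :
    pit a b e = (a - b / 128) * (2 + 128 * e) := by
  obtain ⟨k1, k2⟩ := abs_le.1 (show |b| ≤ 64 * a by linarith only [hab])
  have ha : 0 ≤ a := by linarith only [k1, k2, abs_nonneg b]
  unfold pit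
  have h3 : (a - b / 128) * (2 + 128 * e) ≤ a + b * e := by nlinarith only [h2, k2]
  have h4 : (a - b / 128) * (2 + 128 * e) ≤ (a + b / 128) * (2 - 128 * e) := by nlinarith only [k1, h3, h2]
  rw [min_eq_right h4, min_eq_right h3, max_eq_right]
  nlinarith only [h1, k1, k2]

/-! ### Chains -/

/-- one step of a chain -/
theorem ch_step {p r : ℚ × ℚ} {L : List (ℚ × ℚ)} {f : ℝ → ℝ} {a b : ℝ} (ha : a = p.1)
    (h1 : ∀ y : ℝ, (p.1 : ℝ) ≤ y → y ≤ r.1 →
      f y = p.2 + (y - p.1) / (r.1 - p.1) * (r.2 - p.2))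
    (h2 : ∀ y : ℝ, (r.1 : ℝ) ≤ y → y ≤ b → chainVal (r :: L) y = f y) :
    ∀ y : ℝ, a ≤ y → y ≤ b → chainVal (p :: r :: L) y = f y := by
  intro y hy1 hy2
  rw [ha] at hy1
  rw [chainVal]
  split
  · next h => exact (h1 y hy1 h).symm
  · next h => exact h2 y (not_le.1 h).le hy2

/-- the last step of a chain -/
theorem ch_last {p r : ℚ × ℚ} {f : ℝ → ℝ} {a b : ℝ} (ha : a = p.1) (hb : b = r.1)
    (h1 : ∀ y : ℝ, (p.1 : ℝ) ≤ y → y ≤ r.1 →
      f y = p.2 + (y - p.1) / (r.1 - p.1) * (r.2 - p.2)) :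
    ∀ y : ℝ, a ≤ y → y ≤ b → chainVal [p, r] y = f y := by
  intro y hy1 hy2
  rw [ha] at hy1
  rw [chainVal, if_pos (hy2.trans hb.le)]
  exact (h1 y hy1 (hy2.trans hb.le)).symm

/-- a strictly monotone path is weakly monotone -/
theorem weak_of_strict {L : Polygon} (h : L.Pairwise fun p r => p.1 < r.1) : WeakX L := by
  have key : ∀ i j : ℕ, i < j → j < L.length → (L.getD i 0).1 < (L.getD j 0).1 := by
    intro i j hij hj
    have := List.pairwise_iff_getElem.1 h i j (hij.trans hj) hj hij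
    rwa [List.getD_eq_getElem _ _ (hij.trans hj), List.getD_eq_getElem _ _ hj]
  refine ⟨fun i hi => ?_, fun i hi => key i (i + 2) (by omega) hi⟩
  have := key i (i + 1) (by omega) hi
  exact ⟨this.le, fun e => by rw [e] at this; exact lt_irrefl _ this⟩

/-- a chain of strict inequalities -/
theorem pw_of_chain {L : Polygon} {f : ℚ × ℚ → ℚ} (h : List.IsChain (fun p r => f p < f r) L) :
    L.Pairwise fun p r => f p < f r := by
  have : IsTrans (ℚ × ℚ) (fun p r => f p < f r) := ⟨fun _ _ _ => lt_trans⟩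
  exact List.isChain_iff_pairwise.1 h

/-- rational version of the small powers -/
theorem pwQ {t : ℚ} (ht : 0 < t) (h1 : t ≤ 1 / 2 ^ 60) :
    t ≤ 1 / 1024 ∧ 0 < t ^ 2 ∧ t ^ 2 ≤ t / 1024 ∧ 0 < t ^ 3 ∧ t ^ 3 ≤ t / 1024 ∧ 0 < t ^ 4 ∧
      t ^ 4 ≤ t ^ 3 / 1024 ∧ 0 < t ^ 7 ∧ t ^ 7 ≤ t ^ 3 / 1024 := by
  have h2 : t ≤ 1 / 1024 := h1.trans (by norm_num)
  have p2 : t ^ 2 ≤ t / 1024 := by nlinarith only [ht, h1]
  have p3 : t ^ 3 ≤ t ^ 2 / 1024 := by nlinarith only [h1, pow_pos ht 2]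
  have p4 : t ^ 4 ≤ t ^ 3 / 1024 := by nlinarith only [p2, pow_pos ht 3]
  have p5 : t ^ 5 ≤ t ^ 4 / 1024 := by nlinarith only [p3, pow_pos ht 4]
  have p6 : t ^ 6 ≤ t ^ 5 / 1024 := by nlinarith [pow_pos ht 5]
  have p7 : t ^ 7 ≤ t ^ 6 / 1024 := by nlinarith [pow_pos ht 6]
  have q2 := pow_pos ht 2
  have q3 := pow_pos ht 3
  have q4 := pow_pos ht 4
  have q5 := pow_pos ht 5
  have q6 := pow_pos ht 6
  have q7 := pow_pos ht 7
  refine ⟨h2, q2, p2, q3, by linarith only [p2, p3, p4, p5, p6, p7, q7], q4, p4, q7, by linarith⟩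

theorem par64 {t : ℝ} (ht : 0 < t) (h1 : t ≤ 1 / 2 ^ 60) :
    |(-t ^ 4)| / 64 ≤ t ^ 3 - t ^ 4 ∧ |(-t ^ 3)| / 64 ≤ t ^ 3 / 2 ∧
      |(t ^ 3)| / 64 ≤ t ^ 3 / 2 := by
  obtain ⟨p1, p2, p3, p4, p5, p6, p7, -⟩ := pw ht h1
  rw [abs_neg, abs_neg, abs_of_pos p6, abs_of_pos p4]
  refine ⟨?_, ?_, ?_⟩ <;> linarith only [p6, p7]


theorem bot_val {t : ℚ} (hq : 0 < t) (hq1 : t ≤ 1 / 2 ^ 60) :
    ∀ x : ℝ, -1 / 2 + (t : ℝ) ≤ x → x ≤ 1 / 2 - (t : ℝ) → chainVal (botP t) x = lo (t : ℝ) x := by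
  have ht : (0 : ℝ) < t := by exact_mod_cast hq
  have h1 : (t : ℝ) ≤ 1 / 2 ^ 60 := by
    have : ((t : ℚ) : ℝ) ≤ ((1 / 2 ^ 60 : ℚ) : ℝ) := by exact_mod_cast hq1
    push_cast at this
    exact this
  obtain ⟨p1, p2, p3, p4, p5, p6, p7, p8, p9⟩ := pw ht h1
  obtain ⟨a1, a2, a3, a4, a5, a6, a7, a8⟩ := par ht h1
  obtain ⟨b1, b2, b3⟩ := par64 ht h1
  have hh1 : 1 / 2 ≤ hh (t : ℝ) := by unfold hh; linarith only [p2]
  simp only [botP, sBot, tentPts, List.cons_append, List.nil_append]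
  refine ch_step (f := lo (t : ℝ)) (by push_cast [cast_hh]; ring) ?_ ?_
  · intro x hy1 hy2
    push_cast [cast_hh] at hy1 hy2 ⊢
    have hcz : chamf (t : ℝ) (1 / 2) x = 0 := chamf_zero (abs_le.2 ⟨by linarith only [hy1], by linarith only [h1, hy2]⟩)
    unfold lo
    rw [dent_zero ht (e := x + 1 / 4) (le_abs_of (Or.inr (by linarith only [hy2]))),
      dent_zero ht (e := x - 1 / 4) (le_abs_of (Or.inr (by linarith only [hy2]))),
      hcz]
    first | ring1 | (field_simp; ring1) | field_simp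
  refine ch_step (f := lo (t : ℝ)) rfl ?_ ?_
  · intro x hy1 hy2
    push_cast [cast_hh] at hy1 hy2 ⊢
    have hcz : chamf (t : ℝ) (1 / 2) x = 0 := chamf_zero (abs_le.2 ⟨by linarith only [h1, hy1], by linarith only [h1, hy2]⟩)
    unfold lo
    rw [dent_l ht (e := x + 1 / 4) (by linarith only [hy1]) (by linarith only [hy2]),
      dent_zero ht (e := x - 1 / 4) (le_abs_of (Or.inr (by linarith only [hy2]))),
      hcz]
    first | ring1 | (field_simp; ring1) | field_simp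
  refine ch_step (f := lo (t : ℝ)) rfl ?_ ?_
  · intro x hy1 hy2
    push_cast [cast_hh] at hy1 hy2 ⊢
    have hcz : chamf (t : ℝ) (1 / 2) x = 0 := chamf_zero (abs_le.2 ⟨by linarith only [h1, hy1], by linarith only [h1, hy2]⟩)
    unfold lo
    rw [dent_r ht (e := x + 1 / 4) (by linarith only [hy1]) (by linarith only [hy2]),
      dent_zero ht (e := x - 1 / 4) (le_abs_of (Or.inr (by linarith only [hy2]))),
      hcz]
    first | ring1 | (field_simp; ring1) | field_simp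
  refine ch_step (f := lo (t : ℝ)) rfl ?_ ?_
  · intro x hy1 hy2
    push_cast [cast_hh] at hy1 hy2 ⊢
    have hcz : chamf (t : ℝ) (1 / 2) x = 0 := chamf_zero (abs_le.2 ⟨by linarith only [h1, hy1], by linarith only [h1, hy2]⟩)
    unfold lo
    rw [dent_zero ht (e := x + 1 / 4) (le_abs_of (Or.inl (by linarith only [hy1]))),
      dent_zero ht (e := x - 1 / 4) (le_abs_of (Or.inr (by linarith only [hy2]))),
      hcz]
    first | ring1 | (field_simp; ring1) | field_simp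
  refine ch_step (f := lo (t : ℝ)) rfl ?_ ?_
  · intro x hy1 hy2
    push_cast [cast_hh] at hy1 hy2 ⊢
    have hcz : chamf (t : ℝ) (1 / 2) x = 0 := chamf_zero (abs_le.2 ⟨by linarith only [h1, hy1], by linarith only [h1, hy2]⟩)
    unfold lo
    rw [dent_zero ht (e := x + 1 / 4) (le_abs_of (Or.inl (by linarith only [hy1]))),
      dent_l ht (e := x - 1 / 4) (by linarith only [hy1]) (by linarith only [hy2]),
      hcz]
    first | ring1 | (field_simp; ring1) | field_simp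
  refine ch_step (f := lo (t : ℝ)) rfl ?_ ?_
  · intro x hy1 hy2
    push_cast [cast_hh] at hy1 hy2 ⊢
    have hcz : chamf (t : ℝ) (1 / 2) x = 0 := chamf_zero (abs_le.2 ⟨by linarith only [h1, hy1], by linarith only [h1, hy2]⟩)
    unfold lo
    rw [dent_zero ht (e := x + 1 / 4) (le_abs_of (Or.inl (by linarith only [hy1]))),
      dent_r ht (e := x - 1 / 4) (by linarith only [hy1]) (by linarith only [hy2]),
      hcz]
    first | ring1 | (field_simp; ring1) | field_simp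
  refine ch_last (f := lo (t : ℝ)) rfl (by push_cast [cast_hh]; ring) ?_
  intro x hy1 hy2
  push_cast [cast_hh] at hy1 hy2 ⊢
  have hcz : chamf (t : ℝ) (1 / 2) x = 0 := chamf_zero (abs_le.2 ⟨by linarith only [h1, hy1], by linarith only [hy2]⟩)
  unfold lo
  rw [dent_zero ht (e := x + 1 / 4) (le_abs_of (Or.inl (by linarith only [hy1]))),
      dent_zero ht (e := x - 1 / 4) (le_abs_of (Or.inl (by linarith only [hy1]))),
      hcz]
  first | ring1 | (field_simp; ring1) | field_simp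

theorem top_val {t : ℚ} (hq : 0 < t) (hq1 : t ≤ 1 / 2 ^ 60) :
    ∀ x : ℝ, -1 / 2 + (t : ℝ) ≤ x → x ≤ 1 / 2 - (t : ℝ) → chainVal (topP t) x = hi (t : ℝ) x := by
  have ht : (0 : ℝ) < t := by exact_mod_cast hq
  have h1 : (t : ℝ) ≤ 1 / 2 ^ 60 := by
    have : ((t : ℚ) : ℝ) ≤ ((1 / 2 ^ 60 : ℚ) : ℝ) := by exact_mod_cast hq1
    push_cast at this
    exact this
  obtain ⟨p1, p2, p3, p4, p5, p6, p7, p8, p9⟩ := pw ht h1
  obtain ⟨a1, a2, a3, a4, a5, a6, a7, a8⟩ := par ht h1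
  obtain ⟨b1, b2, b3⟩ := par64 ht h1
  have hh1 : 1 / 2 ≤ hh (t : ℝ) := by unfold hh; linarith only [p2]
  simp only [topP, sTop, tentPts, List.cons_append, List.nil_append]
  refine ch_step (f := hi (t : ℝ)) (by push_cast [cast_hh]; ring) ?_ ?_
  · intro x hy1 hy2
    push_cast [cast_hh] at hy1 hy2 ⊢
    have hcz : chamf (t : ℝ) (1 / 2) x = 0 := chamf_zero (abs_le.2 ⟨by linarith only [hy1], by linarith only [h1, p6, p7, hy2]⟩)
    unfold hi
    rw [bump_zero (e := x + 1 / 4) (le_abs_of (Or.inr (by linarith only [hy2]))),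
      bump_zero (e := x - 1 / 4) (le_abs_of (Or.inr (by linarith only [hy2]))),
      hcz]
    first | ring1 | (field_simp; ring1) | field_simp
  refine ch_step (f := hi (t : ℝ)) rfl ?_ ?_
  · intro x hy1 hy2
    push_cast [cast_hh] at hy1 hy2 ⊢
    have hcz : chamf (t : ℝ) (1 / 2) x = 0 := chamf_zero (abs_le.2 ⟨by linarith only [h1, p5, hy1], by linarith only [h1, hy2]⟩)
    unfold hi
    rw [bump_l (e := x + 1 / 4) (by linarith only [hy1]) (by linarith only [hy2]),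
      bump_zero (e := x - 1 / 4) (le_abs_of (Or.inr (by linarith only [h1, p5, hy2]))),
      hcz]
    first | ring1 | (field_simp; ring1) | field_simp
  refine ch_step (f := hi (t : ℝ)) rfl ?_ ?_
  · intro x hy1 hy2
    push_cast [cast_hh] at hy1 hy2 ⊢
    have hcz : chamf (t : ℝ) (1 / 2) x = 0 := chamf_zero (abs_le.2 ⟨by linarith only [h1, hy1], by linarith only [h1, p5, hy2]⟩)
    unfold hi
    rw [bump_r (e := x + 1 / 4) (by linarith only [hy1]) (by linarith only [hy2]),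
      bump_zero (e := x - 1 / 4) (le_abs_of (Or.inr (by linarith only [h1, p5, hy2]))),
      hcz]
    first | ring1 | (field_simp; ring1) | field_simp
  refine ch_step (f := hi (t : ℝ)) rfl ?_ ?_
  · intro x hy1 hy2
    push_cast [cast_hh] at hy1 hy2 ⊢
    have hcz : chamf (t : ℝ) (1 / 2) x = 0 := chamf_zero (abs_le.2 ⟨by linarith only [h1, p6, p7, hy1], by linarith only [h1, p6, p7, hy2]⟩)
    unfold hi
    rw [bump_zero (e := x + 1 / 4) (le_abs_of (Or.inl (by linarith only [hy1]))),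
      bump_zero (e := x - 1 / 4) (le_abs_of (Or.inr (by linarith only [hy2]))),
      hcz]
    first | ring1 | (field_simp; ring1) | field_simp
  refine ch_step (f := hi (t : ℝ)) rfl ?_ ?_
  · intro x hy1 hy2
    push_cast [cast_hh] at hy1 hy2 ⊢
    have hcz : chamf (t : ℝ) (1 / 2) x = 0 := chamf_zero (abs_le.2 ⟨by linarith only [h1, p5, hy1], by linarith only [h1, hy2]⟩)
    unfold hi
    rw [bump_zero (e := x + 1 / 4) (le_abs_of (Or.inl (by linarith only [h1, p5, hy1]))),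
      bump_l (e := x - 1 / 4) (by linarith only [hy1]) (by linarith only [hy2]),
      hcz]
    first | ring1 | (field_simp; ring1) | field_simp
  refine ch_step (f := hi (t : ℝ)) rfl ?_ ?_
  · intro x hy1 hy2
    push_cast [cast_hh] at hy1 hy2 ⊢
    have hcz : chamf (t : ℝ) (1 / 2) x = 0 := chamf_zero (abs_le.2 ⟨by linarith only [h1, hy1], by linarith only [h1, p5, hy2]⟩)
    unfold hi
    rw [bump_zero (e := x + 1 / 4) (le_abs_of (Or.inl (by linarith only [h1, p5, hy1]))),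
      bump_r (e := x - 1 / 4) (by linarith only [hy1]) (by linarith only [hy2]),
      hcz]
    first | ring1 | (field_simp; ring1) | field_simp
  refine ch_last (f := hi (t : ℝ)) rfl (by push_cast [cast_hh]; ring) ?_
  intro x hy1 hy2
  push_cast [cast_hh] at hy1 hy2 ⊢
  have hcz : chamf (t : ℝ) (1 / 2) x = 0 := chamf_zero (abs_le.2 ⟨by linarith only [h1, p6, p7, hy1], by linarith only [hy2]⟩)
  unfold hi
  rw [bump_zero (e := x + 1 / 4) (le_abs_of (Or.inl (by linarith only [hy1]))),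
      bump_zero (e := x - 1 / 4) (le_abs_of (Or.inl (by linarith only [hy1]))),
      hcz]
  first | ring1 | (field_simp; ring1) | field_simp

end Pool.Agent.Helper2_Pak.H54
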