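import Pool.Agent.Helper54_Pak.SideV

/-!
# The left and the right side of the shape as chains
-/

namespace Pool.Agent.Helper2_Pak.H54

open MeasureTheory Set
open Pool.Agent.Helper2_Pack (Polygon pt Crosses region IsSimple chainVal)

theorem lef_val {t : ℚ} (hq : 0 < t) (hq1 : t ≤ 1 / 2 ^ 60) :
    ∀ y : ℝ, -hh (t : ℝ) ≤ y → y ≤ hh (t : ℝ) → chainVal (swp (lefP t)) y = lf (t : ℝ) y := by
  have ht : (0 : ℝ) < t := by exact_mod_cast hq
  have h1 : (t : ℝ) ≤ 1 / 2 ^ 60 := by
    have : ((t : ℚ) : ℝ) ≤ ((1 / 2 ^ 60 : ℚ) : ℝ) := by exact_mod_cast hq1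
    push_cast at this
    exact this
  obtain ⟨p1, p2, p3, p4, p5, p6, p7, p8, p9⟩ := pw ht h1
  obtain ⟨a1, a2, a3, a4, a5, a6, a7, a8⟩ := par ht h1
  obtain ⟨b1, b2, b3⟩ := par64 ht h1
  have hh1 : 1 / 2 ≤ hh (t : ℝ) := by unfold hh; linarith only [p2]
  simp only [lefP, sLeft, pitPts, swp, List.map_cons, List.map_nil, List.cons_append, List.nil_append, Prod.swap]
  refine ch_step (f := lf (t : ℝ)) (by push_cast [cast_hh]; ring) ?_ ?_
  · intro y hy1 hy2
    push_cast [cast_hh] at hy1 hy2 ⊢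
    unfold lf
    rw [pit_zero a1 (e := y + 1 / 4) (le_abs_of (Or.inr (by linarith only [h1, hh1, hy2]))),
      pit_zero a1 (e := y - 1 / 4) (le_abs_of (Or.inr (by linarith only [h1, hh1, hy2]))),
      slit_zero ht a7 (e := y + 1 / 16) (le_abs_of (Or.inr (by linarith only [h1, p5, p9, hh1, hy2]))),
      slit_zero ht a8 (e := y - 1 / 16) (le_abs_of (Or.inr (by linarith only [h1, p5, p9, hh1, hy2]))),
      chamf_l (by linarith only [h1, hh1]) (by linarith only [hy2])]
    rw [show (-hh (t : ℝ) + t - -hh (t : ℝ)) = t by ring]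
    first | ring1 | (field_simp; ring1) | field_simp
  refine ch_step (f := lf (t : ℝ)) rfl ?_ ?_
  · intro y hy1 hy2
    push_cast [cast_hh] at hy1 hy2 ⊢
    have hcz : chamf (t : ℝ) (hh (t : ℝ)) y = 0 := chamf_zero (abs_le.2 ⟨by linarith only [hy1], by linarith only [h1, hh1, hy2]⟩)
    unfold lf
    rw [pit_zero a1 (e := y + 1 / 4) (le_abs_of (Or.inr (by linarith only [hy2]))),
      pit_zero a1 (e := y - 1 / 4) (le_abs_of (Or.inr (by linarith only [hy2]))),
      slit_zero ht a7 (e := y + 1 / 16) (le_abs_of (Or.inr (by linarith only [h1, p5, p9, hy2]))),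
      slit_zero ht a8 (e := y - 1 / 16) (le_abs_of (Or.inr (by linarith only [h1, p5, p9, hy2]))),
      hcz]
    first | ring1 | (field_simp; ring1) | field_simp
  refine ch_step (f := lf (t : ℝ)) rfl ?_ ?_
  · intro y hy1 hy2
    push_cast [cast_hh] at hy1 hy2 ⊢
    have hcz : chamf (t : ℝ) (hh (t : ℝ)) y = 0 := chamf_zero (abs_le.2 ⟨by linarith only [h1, hh1, hy1], by linarith only [h1, hh1, hy2]⟩)
    unfold lf
    rw [pit_l b1 (e := y + 1 / 4) (by linarith only [hy1]) (by linarith only [hy2]),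
      pit_zero a1 (e := y - 1 / 4) (le_abs_of (Or.inr (by linarith only [hy2]))),
      slit_zero ht a7 (e := y + 1 / 16) (le_abs_of (Or.inr (by linarith only [h1, p5, p9, hy2]))),
      slit_zero ht a8 (e := y - 1 / 16) (le_abs_of (Or.inr (by linarith only [h1, p5, p9, hy2]))),
      hcz]
    first | ring1 | (field_simp; ring1) | field_simp
  refine ch_step (f := lf (t : ℝ)) rfl ?_ ?_
  · intro y hy1 hy2
    push_cast [cast_hh] at hy1 hy2 ⊢
    have hcz : chamf (t : ℝ) (hh (t : ℝ)) y = 0 := chamf_zero (abs_le.2 ⟨by linarith only [h1, hh1, hy1], by linarith only [h1, hh1, hy2]⟩)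
    unfold lf
    rw [pit_m b1 (e := y + 1 / 4) (by linarith only [hy1]) (by linarith only [hy2]),
      pit_zero a1 (e := y - 1 / 4) (le_abs_of (Or.inr (by linarith only [hy2]))),
      slit_zero ht a7 (e := y + 1 / 16) (le_abs_of (Or.inr (by linarith only [h1, p5, p9, hy2]))),
      slit_zero ht a8 (e := y - 1 / 16) (le_abs_of (Or.inr (by linarith only [h1, p5, p9, hy2]))),
      hcz]
    first | ring1 | (field_simp; ring1) | field_simp
  refine ch_step (f := lf (t : ℝ)) rfl ?_ ?_
  · intro y hy1 hy2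
    push_cast [cast_hh] at hy1 hy2 ⊢
    have hcz : chamf (t : ℝ) (hh (t : ℝ)) y = 0 := chamf_zero (abs_le.2 ⟨by linarith only [h1, hh1, hy1], by linarith only [h1, hh1, hy2]⟩)
    unfold lf
    rw [pit_r b1 (e := y + 1 / 4) (by linarith only [hy1]) (by linarith only [hy2]),
      pit_zero a1 (e := y - 1 / 4) (le_abs_of (Or.inr (by linarith only [hy2]))),
      slit_zero ht a7 (e := y + 1 / 16) (le_abs_of (Or.inr (by linarith only [h1, p5, p9, hy2]))),
      slit_zero ht a8 (e := y - 1 / 16) (le_abs_of (Or.inr (by linarith only [h1, p5, p9, hy2]))),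
      hcz]
    first | ring1 | (field_simp; ring1) | field_simp
  refine ch_step (f := lf (t : ℝ)) rfl ?_ ?_
  · intro y hy1 hy2
    push_cast [cast_hh] at hy1 hy2 ⊢
    have hcz : chamf (t : ℝ) (hh (t : ℝ)) y = 0 := chamf_zero (abs_le.2 ⟨by linarith only [h1, hh1, hy1], by linarith only [h1, p8, hh1, hy2]⟩)
    unfold lf
    rw [pit_zero a1 (e := y + 1 / 4) (le_abs_of (Or.inl (by linarith only [hy1]))),
      pit_zero a1 (e := y - 1 / 4) (le_abs_of (Or.inr (by linarith only [p8, hy2]))),
      slit_zero ht a7 (e := y + 1 / 16) (le_abs_of (Or.inr (by linarith only [hy2]))),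
      slit_zero ht a8 (e := y - 1 / 16) (le_abs_of (Or.inr (by linarith only [hy2]))),
      hcz]
    first | ring1 | (field_simp; ring1) | field_simp
  refine ch_step (f := lf (t : ℝ)) rfl ?_ ?_
  · intro y hy1 hy2
    push_cast [cast_hh] at hy1 hy2 ⊢
    have hcz : chamf (t : ℝ) (hh (t : ℝ)) y = 0 := chamf_zero (abs_le.2 ⟨by linarith only [h1, p5, p9, hh1, hy1], by linarith only [h1, hh1, hy2]⟩)
    unfold lf
    rw [pit_zero a1 (e := y + 1 / 4) (le_abs_of (Or.inl (by linarith only [h1, p5, p9, hy1]))),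
      pit_zero a1 (e := y - 1 / 4) (le_abs_of (Or.inr (by linarith only [hy2]))),
      slit_l ht a7 (e := y + 1 / 16) (by linarith only [hy1]) (by linarith only [hy2]),
      slit_zero ht a8 (e := y - 1 / 16) (le_abs_of (Or.inr (by linarith only [h1, p5, p9, hy2]))),
      hcz]
    first | ring1 | (field_simp; ring1) | field_simp
  refine ch_step (f := lf (t : ℝ)) rfl ?_ ?_
  · intro y hy1 hy2
    push_cast [cast_hh] at hy1 hy2 ⊢
    have hcz : chamf (t : ℝ) (hh (t : ℝ)) y = 0 := chamf_zero (abs_le.2 ⟨by linarith only [h1, hh1, hy1], by linarith only [h1, p5, p9, hh1, hy2]⟩)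
    unfold lf
    rw [pit_zero a1 (e := y + 1 / 4) (le_abs_of (Or.inl (by linarith only [hy1]))),
      pit_zero a1 (e := y - 1 / 4) (le_abs_of (Or.inr (by linarith only [h1, p5, p9, hy2]))),
      slit_r ht a7 (e := y + 1 / 16) (by linarith only [hy1]) (by linarith only [hy2]),
      slit_zero ht a8 (e := y - 1 / 16) (le_abs_of (Or.inr (by linarith only [h1, p5, p9, hy2]))),
      hcz]
    first | ring1 | (field_simp; ring1) | field_simp
  refine ch_step (f := lf (t : ℝ)) rfl ?_ ?_
  · intro y hy1 hy2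
    push_cast [cast_hh] at hy1 hy2 ⊢
    have hcz : chamf (t : ℝ) (hh (t : ℝ)) y = 0 := chamf_zero (abs_le.2 ⟨by linarith only [h1, p8, hh1, hy1], by linarith only [h1, p8, hh1, hy2]⟩)
    unfold lf
    rw [pit_zero a1 (e := y + 1 / 4) (le_abs_of (Or.inl (by linarith only [p8, hy1]))),
      pit_zero a1 (e := y - 1 / 4) (le_abs_of (Or.inr (by linarith only [p8, hy2]))),
      slit_zero ht a7 (e := y + 1 / 16) (le_abs_of (Or.inl (by linarith only [hy1]))),
      slit_zero ht a8 (e := y - 1 / 16) (le_abs_of (Or.inr (by linarith only [hy2]))),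
      hcz]
    first | ring1 | (field_simp; ring1) | field_simp
  refine ch_step (f := lf (t : ℝ)) rfl ?_ ?_
  · intro y hy1 hy2
    push_cast [cast_hh] at hy1 hy2 ⊢
    have hcz : chamf (t : ℝ) (hh (t : ℝ)) y = 0 := chamf_zero (abs_le.2 ⟨by linarith only [h1, p5, p9, hh1, hy1], by linarith only [h1, hh1, hy2]⟩)
    unfold lf
    rw [pit_zero a1 (e := y + 1 / 4) (le_abs_of (Or.inl (by linarith only [h1, p5, p9, hy1]))),
      pit_zero a1 (e := y - 1 / 4) (le_abs_of (Or.inr (by linarith only [hy2]))),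
      slit_zero ht a7 (e := y + 1 / 16) (le_abs_of (Or.inl (by linarith only [h1, p5, p9, hy1]))),
      slit_l ht a8 (e := y - 1 / 16) (by linarith only [hy1]) (by linarith only [hy2]),
      hcz]
    first | ring1 | (field_simp; ring1) | field_simp
  refine ch_step (f := lf (t : ℝ)) rfl ?_ ?_
  · intro y hy1 hy2
    push_cast [cast_hh] at hy1 hy2 ⊢
    have hcz : chamf (t : ℝ) (hh (t : ℝ)) y = 0 := chamf_zero (abs_le.2 ⟨by linarith only [h1, hh1, hy1], by linarith only [h1, p5, p9, hh1, hy2]⟩)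
    unfold lf
    rw [pit_zero a1 (e := y + 1 / 4) (le_abs_of (Or.inl (by linarith only [hy1]))),
      pit_zero a1 (e := y - 1 / 4) (le_abs_of (Or.inr (by linarith only [h1, p5, p9, hy2]))),
      slit_zero ht a7 (e := y + 1 / 16) (le_abs_of (Or.inl (by linarith only [h1, p5, p9, hy1]))),
      slit_r ht a8 (e := y - 1 / 16) (by linarith only [hy1]) (by linarith only [hy2]),
      hcz]
    first | ring1 | (field_simp; ring1) | field_simp
  refine ch_step (f := lf (t : ℝ)) rfl ?_ ?_
  · intro y hy1 hy2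
    push_cast [cast_hh] at hy1 hy2 ⊢
    have hcz : chamf (t : ℝ) (hh (t : ℝ)) y = 0 := chamf_zero (abs_le.2 ⟨by linarith only [h1, p8, hh1, hy1], by linarith only [h1, hh1, hy2]⟩)
    unfold lf
    rw [pit_zero a1 (e := y + 1 / 4) (le_abs_of (Or.inl (by linarith only [p8, hy1]))),
      pit_zero a1 (e := y - 1 / 4) (le_abs_of (Or.inr (by linarith only [hy2]))),
      slit_zero ht a7 (e := y + 1 / 16) (le_abs_of (Or.inl (by linarith only [hy1]))),
      slit_zero ht a8 (e := y - 1 / 16) (le_abs_of (Or.inl (by linarith only [hy1]))),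
      hcz]
    first | ring1 | (field_simp; ring1) | field_simp
  refine ch_step (f := lf (t : ℝ)) rfl ?_ ?_
  · intro y hy1 hy2
    push_cast [cast_hh] at hy1 hy2 ⊢
    have hcz : chamf (t : ℝ) (hh (t : ℝ)) y = 0 := chamf_zero (abs_le.2 ⟨by linarith only [h1, hh1, hy1], by linarith only [h1, hh1, hy2]⟩)
    unfold lf
    rw [pit_zero a1 (e := y + 1 / 4) (le_abs_of (Or.inl (by linarith only [hy1]))),
      pit_l b1 (e := y - 1 / 4) (by linarith only [hy1]) (by linarith only [hy2]),
      slit_zero ht a7 (e := y + 1 / 16) (le_abs_of (Or.inl (by linarith only [h1, p5, p9, hy1]))),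
      slit_zero ht a8 (e := y - 1 / 16) (le_abs_of (Or.inl (by linarith only [h1, p5, p9, hy1]))),
      hcz]
    first | ring1 | (field_simp; ring1) | field_simp
  refine ch_step (f := lf (t : ℝ)) rfl ?_ ?_
  · intro y hy1 hy2
    push_cast [cast_hh] at hy1 hy2 ⊢
    have hcz : chamf (t : ℝ) (hh (t : ℝ)) y = 0 := chamf_zero (abs_le.2 ⟨by linarith only [h1, hh1, hy1], by linarith only [h1, hh1, hy2]⟩)
    unfold lf
    rw [pit_zero a1 (e := y + 1 / 4) (le_abs_of (Or.inl (by linarith only [hy1]))),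
      pit_m b1 (e := y - 1 / 4) (by linarith only [hy1]) (by linarith only [hy2]),
      slit_zero ht a7 (e := y + 1 / 16) (le_abs_of (Or.inl (by linarith only [h1, p5, p9, hy1]))),
      slit_zero ht a8 (e := y - 1 / 16) (le_abs_of (Or.inl (by linarith only [h1, p5, p9, hy1]))),
      hcz]
    first | ring1 | (field_simp; ring1) | field_simp
  refine ch_step (f := lf (t : ℝ)) rfl ?_ ?_
  · intro y hy1 hy2
    push_cast [cast_hh] at hy1 hy2 ⊢
    have hcz : chamf (t : ℝ) (hh (t : ℝ)) y = 0 := chamf_zero (abs_le.2 ⟨by linarith only [h1, hh1, hy1], by linarith only [h1, hh1, hy2]⟩)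
    unfold lf
    rw [pit_zero a1 (e := y + 1 / 4) (le_abs_of (Or.inl (by linarith only [hy1]))),
      pit_r b1 (e := y - 1 / 4) (by linarith only [hy1]) (by linarith only [hy2]),
      slit_zero ht a7 (e := y + 1 / 16) (le_abs_of (Or.inl (by linarith only [h1, p5, p9, hy1]))),
      slit_zero ht a8 (e := y - 1 / 16) (le_abs_of (Or.inl (by linarith only [h1, p5, p9, hy1]))),
      hcz]
    first | ring1 | (field_simp; ring1) | field_simp
  refine ch_step (f := lf (t : ℝ)) rfl ?_ ?_
  · intro y hy1 hy2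
    push_cast [cast_hh] at hy1 hy2 ⊢
    have hcz : chamf (t : ℝ) (hh (t : ℝ)) y = 0 := chamf_zero (abs_le.2 ⟨by linarith only [h1, hh1, hy1], by linarith only [hy2]⟩)
    unfold lf
    rw [pit_zero a1 (e := y + 1 / 4) (le_abs_of (Or.inl (by linarith only [hy1]))),
      pit_zero a1 (e := y - 1 / 4) (le_abs_of (Or.inl (by linarith only [hy1]))),
      slit_zero ht a7 (e := y + 1 / 16) (le_abs_of (Or.inl (by linarith only [h1, p5, p9, hy1]))),
      slit_zero ht a8 (e := y - 1 / 16) (le_abs_of (Or.inl (by linarith only [h1, p5, p9, hy1]))),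
      hcz]
    first | ring1 | (field_simp; ring1) | field_simp
  refine ch_last (f := lf (t : ℝ)) rfl (by push_cast [cast_hh]; ring) ?_
  intro y hy1 hy2
  push_cast [cast_hh] at hy1 hy2 ⊢
  unfold lf
  rw [pit_zero a1 (e := y + 1 / 4) (le_abs_of (Or.inl (by linarith only [h1, hh1, hy1]))),
      pit_zero a1 (e := y - 1 / 4) (le_abs_of (Or.inl (by linarith only [h1, hh1, hy1]))),
      slit_zero ht a7 (e := y + 1 / 16) (le_abs_of (Or.inl (by linarith only [h1, p5, p9, hh1, hy1]))),
      slit_zero ht a8 (e := y - 1 / 16) (le_abs_of (Or.inl (by linarith only [h1, p5, p9, hh1, hy1]))),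
      chamf_r (by linarith only [h1, hh1]) (by linarith only [hy1])]
  rw [show (hh (t : ℝ) - (hh (t : ℝ) - t)) = t by ring]
  first | ring1 | (field_simp; ring1) | field_simp

theorem rig_val {t : ℚ} (hq : 0 < t) (hq1 : t ≤ 1 / 2 ^ 60) :
    ∀ y : ℝ, -hh (t : ℝ) ≤ y → y ≤ hh (t : ℝ) → chainVal (swp (rigP t)) y = rt (t : ℝ) y := by
  have ht : (0 : ℝ) < t := by exact_mod_cast hq
  have h1 : (t : ℝ) ≤ 1 / 2 ^ 60 := by
    have : ((t : ℚ) : ℝ) ≤ ((1 / 2 ^ 60 : ℚ) : ℝ) := by exact_mod_cast hq1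
    push_cast at this
    exact this
  obtain ⟨p1, p2, p3, p4, p5, p6, p7, p8, p9⟩ := pw ht h1
  obtain ⟨a1, a2, a3, a4, a5, a6, a7, a8⟩ := par ht h1
  obtain ⟨b1, b2, b3⟩ := par64 ht h1
  have hh1 : 1 / 2 ≤ hh (t : ℝ) := by unfold hh; linarith only [p2]
  simp only [rigP, sRight, pitPts, swp, List.map_cons, List.map_nil, List.cons_append, List.nil_append, Prod.swap]
  refine ch_step (f := rt (t : ℝ)) (by push_cast [cast_hh]; ring) ?_ ?_
  · intro y hy1 hy2
    push_cast [cast_hh] at hy1 hy2 ⊢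
    unfold rt
    rw [pit_zero a2 (e := y + 5 / 16) (le_abs_of (Or.inr (by linarith only [h1, hh1, hy2]))),
      pit_zero a3 (e := y + 3 / 16) (le_abs_of (Or.inr (by linarith only [h1, hh1, hy2]))),
      pit_zero a3 (e := y - 3 / 16) (le_abs_of (Or.inr (by linarith only [h1, hh1, hy2]))),
      pit_zero a2 (e := y - 5 / 16) (le_abs_of (Or.inr (by linarith only [h1, hh1, hy2]))),
      chamf_l (by linarith only [h1, hh1]) (by linarith only [hy2])]
    rw [show (-hh (t : ℝ) + t - -hh (t : ℝ)) = t by ring]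
    first | ring1 | (field_simp; ring1) | field_simp
  refine ch_step (f := rt (t : ℝ)) rfl ?_ ?_
  · intro y hy1 hy2
    push_cast [cast_hh] at hy1 hy2 ⊢
    have hcz : chamf (t : ℝ) (hh (t : ℝ)) y = 0 := chamf_zero (abs_le.2 ⟨by linarith only [hy1], by linarith only [h1, hh1, hy2]⟩)
    unfold rt
    rw [pit_zero a2 (e := y + 5 / 16) (le_abs_of (Or.inr (by linarith only [hy2]))),
      pit_zero a3 (e := y + 3 / 16) (le_abs_of (Or.inr (by linarith only [hy2]))),
      pit_zero a3 (e := y - 3 / 16) (le_abs_of (Or.inr (by linarith only [hy2]))),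
      pit_zero a2 (e := y - 5 / 16) (le_abs_of (Or.inr (by linarith only [hy2]))),
      hcz]
    first | ring1 | (field_simp; ring1) | field_simp
  refine ch_step (f := rt (t : ℝ)) rfl ?_ ?_
  · intro y hy1 hy2
    push_cast [cast_hh] at hy1 hy2 ⊢
    have hcz : chamf (t : ℝ) (hh (t : ℝ)) y = 0 := chamf_zero (abs_le.2 ⟨by linarith only [h1, hh1, hy1], by linarith only [h1, hh1, hy2]⟩)
    unfold rt
    rw [pit_l b2 (e := y + 5 / 16) (by linarith only [hy1]) (by linarith only [hy2]),
      pit_zero a3 (e := y + 3 / 16) (le_abs_of (Or.inr (by linarith only [hy2]))),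
      pit_zero a3 (e := y - 3 / 16) (le_abs_of (Or.inr (by linarith only [hy2]))),
      pit_zero a2 (e := y - 5 / 16) (le_abs_of (Or.inr (by linarith only [hy2]))),
      hcz]
    first | ring1 | (field_simp; ring1) | field_simp
  refine ch_step (f := rt (t : ℝ)) rfl ?_ ?_
  · intro y hy1 hy2
    push_cast [cast_hh] at hy1 hy2 ⊢
    have hcz : chamf (t : ℝ) (hh (t : ℝ)) y = 0 := chamf_zero (abs_le.2 ⟨by linarith only [h1, hh1, hy1], by linarith only [h1, hh1, hy2]⟩)
    unfold rt
    rw [pit_m b2 (e := y + 5 / 16) (by linarith only [hy1]) (by linarith only [hy2]),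
      pit_zero a3 (e := y + 3 / 16) (le_abs_of (Or.inr (by linarith only [hy2]))),
      pit_zero a3 (e := y - 3 / 16) (le_abs_of (Or.inr (by linarith only [hy2]))),
      pit_zero a2 (e := y - 5 / 16) (le_abs_of (Or.inr (by linarith only [hy2]))),
      hcz]
    first | ring1 | (field_simp; ring1) | field_simp
  refine ch_step (f := rt (t : ℝ)) rfl ?_ ?_
  · intro y hy1 hy2
    push_cast [cast_hh] at hy1 hy2 ⊢
    have hcz : chamf (t : ℝ) (hh (t : ℝ)) y = 0 := chamf_zero (abs_le.2 ⟨by linarith only [h1, hh1, hy1], by linarith only [h1, hh1, hy2]⟩)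
    unfold rt
    rw [pit_r b2 (e := y + 5 / 16) (by linarith only [hy1]) (by linarith only [hy2]),
      pit_zero a3 (e := y + 3 / 16) (le_abs_of (Or.inr (by linarith only [hy2]))),
      pit_zero a3 (e := y - 3 / 16) (le_abs_of (Or.inr (by linarith only [hy2]))),
      pit_zero a2 (e := y - 5 / 16) (le_abs_of (Or.inr (by linarith only [hy2]))),
      hcz]
    first | ring1 | (field_simp; ring1) | field_simp
  refine ch_step (f := rt (t : ℝ)) rfl ?_ ?_
  · intro y hy1 hy2
    push_cast [cast_hh] at hy1 hy2 ⊢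
    have hcz : chamf (t : ℝ) (hh (t : ℝ)) y = 0 := chamf_zero (abs_le.2 ⟨by linarith only [h1, hh1, hy1], by linarith only [h1, hh1, hy2]⟩)
    unfold rt
    rw [pit_zero a2 (e := y + 5 / 16) (le_abs_of (Or.inl (by linarith only [hy1]))),
      pit_zero a3 (e := y + 3 / 16) (le_abs_of (Or.inr (by linarith only [hy2]))),
      pit_zero a3 (e := y - 3 / 16) (le_abs_of (Or.inr (by linarith only [hy2]))),
      pit_zero a2 (e := y - 5 / 16) (le_abs_of (Or.inr (by linarith only [hy2]))),
      hcz]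
    first | ring1 | (field_simp; ring1) | field_simp
  refine ch_step (f := rt (t : ℝ)) rfl ?_ ?_
  · intro y hy1 hy2
    push_cast [cast_hh] at hy1 hy2 ⊢
    have hcz : chamf (t : ℝ) (hh (t : ℝ)) y = 0 := chamf_zero (abs_le.2 ⟨by linarith only [h1, hh1, hy1], by linarith only [h1, hh1, hy2]⟩)
    unfold rt
    rw [pit_zero a2 (e := y + 5 / 16) (le_abs_of (Or.inl (by linarith only [hy1]))),
      pit_l b3 (e := y + 3 / 16) (by linarith only [hy1]) (by linarith only [hy2]),
      pit_zero a3 (e := y - 3 / 16) (le_abs_of (Or.inr (by linarith only [hy2]))),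
      pit_zero a2 (e := y - 5 / 16) (le_abs_of (Or.inr (by linarith only [hy2]))),
      hcz]
    first | ring1 | (field_simp; ring1) | field_simp
  refine ch_step (f := rt (t : ℝ)) rfl ?_ ?_
  · intro y hy1 hy2
    push_cast [cast_hh] at hy1 hy2 ⊢
    have hcz : chamf (t : ℝ) (hh (t : ℝ)) y = 0 := chamf_zero (abs_le.2 ⟨by linarith only [h1, hh1, hy1], by linarith only [h1, hh1, hy2]⟩)
    unfold rt
    rw [pit_zero a2 (e := y + 5 / 16) (le_abs_of (Or.inl (by linarith only [hy1]))),
      pit_m b3 (e := y + 3 / 16) (by linarith only [hy1]) (by linarith only [hy2]),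
      pit_zero a3 (e := y - 3 / 16) (le_abs_of (Or.inr (by linarith only [hy2]))),
      pit_zero a2 (e := y - 5 / 16) (le_abs_of (Or.inr (by linarith only [hy2]))),
      hcz]
    first | ring1 | (field_simp; ring1) | field_simp
  refine ch_step (f := rt (t : ℝ)) rfl ?_ ?_
  · intro y hy1 hy2
    push_cast [cast_hh] at hy1 hy2 ⊢
    have hcz : chamf (t : ℝ) (hh (t : ℝ)) y = 0 := chamf_zero (abs_le.2 ⟨by linarith only [h1, hh1, hy1], by linarith only [h1, hh1, hy2]⟩)
    unfold rt
    rw [pit_zero a2 (e := y + 5 / 16) (le_abs_of (Or.inl (by linarith only [hy1]))),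
      pit_r b3 (e := y + 3 / 16) (by linarith only [hy1]) (by linarith only [hy2]),
      pit_zero a3 (e := y - 3 / 16) (le_abs_of (Or.inr (by linarith only [hy2]))),
      pit_zero a2 (e := y - 5 / 16) (le_abs_of (Or.inr (by linarith only [hy2]))),
      hcz]
    first | ring1 | (field_simp; ring1) | field_simp
  refine ch_step (f := rt (t : ℝ)) rfl ?_ ?_
  · intro y hy1 hy2
    push_cast [cast_hh] at hy1 hy2 ⊢
    have hcz : chamf (t : ℝ) (hh (t : ℝ)) y = 0 := chamf_zero (abs_le.2 ⟨by linarith only [h1, hh1, hy1], by linarith only [h1, hh1, hy2]⟩)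
    unfold rt
    rw [pit_zero a2 (e := y + 5 / 16) (le_abs_of (Or.inl (by linarith only [hy1]))),
      pit_zero a3 (e := y + 3 / 16) (le_abs_of (Or.inl (by linarith only [hy1]))),
      pit_zero a3 (e := y - 3 / 16) (le_abs_of (Or.inr (by linarith only [hy2]))),
      pit_zero a2 (e := y - 5 / 16) (le_abs_of (Or.inr (by linarith only [hy2]))),
      hcz]
    first | ring1 | (field_simp; ring1) | field_simp
  refine ch_step (f := rt (t : ℝ)) rfl ?_ ?_
  · intro y hy1 hy2
    push_cast [cast_hh] at hy1 hy2 ⊢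
    have hcz : chamf (t : ℝ) (hh (t : ℝ)) y = 0 := chamf_zero (abs_le.2 ⟨by linarith only [h1, hh1, hy1], by linarith only [h1, hh1, hy2]⟩)
    unfold rt
    rw [pit_zero a2 (e := y + 5 / 16) (le_abs_of (Or.inl (by linarith only [hy1]))),
      pit_zero a3 (e := y + 3 / 16) (le_abs_of (Or.inl (by linarith only [hy1]))),
      pit_l b3 (e := y - 3 / 16) (by linarith only [hy1]) (by linarith only [hy2]),
      pit_zero a2 (e := y - 5 / 16) (le_abs_of (Or.inr (by linarith only [hy2]))),
      hcz]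
    first | ring1 | (field_simp; ring1) | field_simp
  refine ch_step (f := rt (t : ℝ)) rfl ?_ ?_
  · intro y hy1 hy2
    push_cast [cast_hh] at hy1 hy2 ⊢
    have hcz : chamf (t : ℝ) (hh (t : ℝ)) y = 0 := chamf_zero (abs_le.2 ⟨by linarith only [h1, hh1, hy1], by linarith only [h1, hh1, hy2]⟩)
    unfold rt
    rw [pit_zero a2 (e := y + 5 / 16) (le_abs_of (Or.inl (by linarith only [hy1]))),
      pit_zero a3 (e := y + 3 / 16) (le_abs_of (Or.inl (by linarith only [hy1]))),
      pit_m b3 (e := y - 3 / 16) (by linarith only [hy1]) (by linarith only [hy2]),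
      pit_zero a2 (e := y - 5 / 16) (le_abs_of (Or.inr (by linarith only [hy2]))),
      hcz]
    first | ring1 | (field_simp; ring1) | field_simp
  refine ch_step (f := rt (t : ℝ)) rfl ?_ ?_
  · intro y hy1 hy2
    push_cast [cast_hh] at hy1 hy2 ⊢
    have hcz : chamf (t : ℝ) (hh (t : ℝ)) y = 0 := chamf_zero (abs_le.2 ⟨by linarith only [h1, hh1, hy1], by linarith only [h1, hh1, hy2]⟩)
    unfold rt
    rw [pit_zero a2 (e := y + 5 / 16) (le_abs_of (Or.inl (by linarith only [hy1]))),
      pit_zero a3 (e := y + 3 / 16) (le_abs_of (Or.inl (by linarith only [hy1]))),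
      pit_r b3 (e := y - 3 / 16) (by linarith only [hy1]) (by linarith only [hy2]),
      pit_zero a2 (e := y - 5 / 16) (le_abs_of (Or.inr (by linarith only [hy2]))),
      hcz]
    first | ring1 | (field_simp; ring1) | field_simp
  refine ch_step (f := rt (t : ℝ)) rfl ?_ ?_
  · intro y hy1 hy2
    push_cast [cast_hh] at hy1 hy2 ⊢
    have hcz : chamf (t : ℝ) (hh (t : ℝ)) y = 0 := chamf_zero (abs_le.2 ⟨by linarith only [h1, hh1, hy1], by linarith only [h1, hh1, hy2]⟩)
    unfold rt
    rw [pit_zero a2 (e := y + 5 / 16) (le_abs_of (Or.inl (by linarith only [hy1]))),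
      pit_zero a3 (e := y + 3 / 16) (le_abs_of (Or.inl (by linarith only [hy1]))),
      pit_zero a3 (e := y - 3 / 16) (le_abs_of (Or.inl (by linarith only [hy1]))),
      pit_zero a2 (e := y - 5 / 16) (le_abs_of (Or.inr (by linarith only [hy2]))),
      hcz]
    first | ring1 | (field_simp; ring1) | field_simp
  refine ch_step (f := rt (t : ℝ)) rfl ?_ ?_
  · intro y hy1 hy2
    push_cast [cast_hh] at hy1 hy2 ⊢
    have hcz : chamf (t : ℝ) (hh (t : ℝ)) y = 0 := chamf_zero (abs_le.2 ⟨by linarith only [h1, hh1, hy1], by linarith only [h1, hh1, hy2]⟩)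
    unfold rt
    rw [pit_zero a2 (e := y + 5 / 16) (le_abs_of (Or.inl (by linarith only [hy1]))),
      pit_zero a3 (e := y + 3 / 16) (le_abs_of (Or.inl (by linarith only [hy1]))),
      pit_zero a3 (e := y - 3 / 16) (le_abs_of (Or.inl (by linarith only [hy1]))),
      pit_l b2 (e := y - 5 / 16) (by linarith only [hy1]) (by linarith only [hy2]),
      hcz]
    first | ring1 | (field_simp; ring1) | field_simp
  refine ch_step (f := rt (t : ℝ)) rfl ?_ ?_
  · intro y hy1 hy2
    push_cast [cast_hh] at hy1 hy2 ⊢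
    have hcz : chamf (t : ℝ) (hh (t : ℝ)) y = 0 := chamf_zero (abs_le.2 ⟨by linarith only [h1, hh1, hy1], by linarith only [h1, hh1, hy2]⟩)
    unfold rt
    rw [pit_zero a2 (e := y + 5 / 16) (le_abs_of (Or.inl (by linarith only [hy1]))),
      pit_zero a3 (e := y + 3 / 16) (le_abs_of (Or.inl (by linarith only [hy1]))),
      pit_zero a3 (e := y - 3 / 16) (le_abs_of (Or.inl (by linarith only [hy1]))),
      pit_m b2 (e := y - 5 / 16) (by linarith only [hy1]) (by linarith only [hy2]),
      hcz]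
    first | ring1 | (field_simp; ring1) | field_simp
  refine ch_step (f := rt (t : ℝ)) rfl ?_ ?_
  · intro y hy1 hy2
    push_cast [cast_hh] at hy1 hy2 ⊢
    have hcz : chamf (t : ℝ) (hh (t : ℝ)) y = 0 := chamf_zero (abs_le.2 ⟨by linarith only [h1, hh1, hy1], by linarith only [h1, hh1, hy2]⟩)
    unfold rt
    rw [pit_zero a2 (e := y + 5 / 16) (le_abs_of (Or.inl (by linarith only [hy1]))),
      pit_zero a3 (e := y + 3 / 16) (le_abs_of (Or.inl (by linarith only [hy1]))),
      pit_zero a3 (e := y - 3 / 16) (le_abs_of (Or.inl (by linarith only [hy1]))),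
      pit_r b2 (e := y - 5 / 16) (by linarith only [hy1]) (by linarith only [hy2]),
      hcz]
    first | ring1 | (field_simp; ring1) | field_simp
  refine ch_step (f := rt (t : ℝ)) rfl ?_ ?_
  · intro y hy1 hy2
    push_cast [cast_hh] at hy1 hy2 ⊢
    have hcz : chamf (t : ℝ) (hh (t : ℝ)) y = 0 := chamf_zero (abs_le.2 ⟨by linarith only [h1, hh1, hy1], by linarith only [hy2]⟩)
    unfold rt
    rw [pit_zero a2 (e := y + 5 / 16) (le_abs_of (Or.inl (by linarith only [hy1]))),
      pit_zero a3 (e := y + 3 / 16) (le_abs_of (Or.inl (by linarith only [hy1]))),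
      pit_zero a3 (e := y - 3 / 16) (le_abs_of (Or.inl (by linarith only [hy1]))),
      pit_zero a2 (e := y - 5 / 16) (le_abs_of (Or.inl (by linarith only [hy1]))),
      hcz]
    first | ring1 | (field_simp; ring1) | field_simp
  refine ch_last (f := rt (t : ℝ)) rfl (by push_cast [cast_hh]; ring) ?_
  intro y hy1 hy2
  push_cast [cast_hh] at hy1 hy2 ⊢
  unfold rt
  rw [pit_zero a2 (e := y + 5 / 16) (le_abs_of (Or.inl (by linarith only [h1, hh1, hy1]))),
      pit_zero a3 (e := y + 3 / 16) (le_abs_of (Or.inl (by linarith only [h1, hh1, hy1]))),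
      pit_zero a3 (e := y - 3 / 16) (le_abs_of (Or.inl (by linarith only [h1, hh1, hy1]))),
      pit_zero a2 (e := y - 5 / 16) (le_abs_of (Or.inl (by linarith only [h1, hh1, hy1]))),
      chamf_r (by linarith only [h1, hh1]) (by linarith only [hy1])]
  rw [show (hh (t : ℝ) - (hh (t : ℝ) - t)) = t by ring]
  first | ring1 | (field_simp; ring1) | field_simp

end Pool.Agent.Helper2_Pak.H54
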